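import Pool.Agent.V7H16.Local

/-!
# The local counting theorem
-/

set_option autoImplicit false

open Finset Filter

namespace Pool.Agent.V7H16

lemma log_le_div (y M : ℝ) (hy : 0 < y) (hM : 0 < M) : Real.log y ≤ y / M + Real.log M := by
  have h1 : Real.log y = Real.log (y / M) + Real.log M := by
    rw [Real.log_div hy.ne' hM.ne']; ring
  have h2 := Real.log_le_sub_one_of_pos (div_pos hy hM)
  linarith

lemma log_three_le : Real.log 3 ≤ 11 / 10 := by
  have h1 : (3 : ℝ) ^ 10 ≤ Real.exp 11 := by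
    have h2 : Real.exp 11 = Real.exp 1 ^ 11 := by
      rw [← Real.exp_nat_mul]; norm_num
    rw [h2]
    have h3 := Real.exp_one_gt_d9
    have h4 : (2.7182818283 : ℝ) ^ 11 ≤ Real.exp 1 ^ 11 := by gcongr
    refine le_trans ?_ h4
    norm_num
  have h2 : Real.log ((3 : ℝ) ^ 10) ≤ 11 := by
    rw [Real.log_le_iff_le_exp (by positivity)]; exact h1
  rw [Real.log_pow] at h2
  push_cast at h2
  linarith

lemma ev_small (Γ : ℕ) : ∀ᶠ x : ℝ in atTop,
    Real.log x + Real.log (Γ + 2 + 4 * x) + 11 / 10 ≤ x / 100 := by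
  filter_upwards [eventually_ge_atTop (max 1
    (1000 * (Real.log 400 + Real.log 1600 + ((Γ : ℝ) + 2) / 1600 + 11 / 10)))] with x hx
  have h1 : 1 ≤ x := (le_max_left _ _).trans hx
  have h2 := (le_max_right _ _).trans hx
  have h3 := log_le_div x 400 (by linarith) (by norm_num)
  have h4 := log_le_div (Γ + 2 + 4 * x) 1600 (by positivity) (by norm_num)
  have h5 : ((Γ : ℝ) + 2 + 4 * x) / 1600 = ((Γ : ℝ) + 2) / 1600 + x / 400 := by ring
  rw [h5] at h4
  linarith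

lemma log_tendsto : Tendsto (fun N : ℕ => Real.log (N : ℝ)) atTop atTop :=
  Real.tendsto_log_atTop.comp tendsto_natCast_atTop_atTop

lemma natlog_le (N : ℕ) (hN : 1 ≤ N) : (Nat.log 2 N : ℝ) ≤ 2 * Real.log N := by
  have h1 : (2 : ℝ) ^ Nat.log 2 N ≤ N := by
    exact_mod_cast Nat.pow_log_le_self 2 (by omega)
  have h2 : Real.log ((2 : ℝ) ^ Nat.log 2 N) ≤ Real.log N := Real.log_le_log (by positivity) h1
  rw [Real.log_pow] at h2
  have h3 := Real.log_two_gt_d9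
  have h4 : (0 : ℝ) ≤ Nat.log 2 N := Nat.cast_nonneg _
  nlinarith

/-- **Local counting theorem.** -/
theorem local_count {b : ℕ} (hb : 2 ≤ b) {α β γ : ℤ} (hα : α ≠ 0) {ξ : ℝ} (hξ : Irrational ξ)
    (hq : (α : ℝ) * ξ ^ 2 + β * ξ + γ = 0) (B C₀ : ℝ) (w₀ : ℕ) :
    ∃ N₀ : ℕ, ∀ (n₁ : ℕ) (e : ℕ → ℤ), (∀ k, |(e k : ℝ)| ≤ B) →
      (∀ n ≤ n₁, |ξ - S b e n| ≤ C₀ / (b : ℝ) ^ n) →
      (∀ u N, 2 ≤ u → e u ≠ 0 → u + w₀ ≤ N → N ≤ n₁ → S b e N ≠ S b e u) →
      ∀ N, N₀ ≤ N → N ≤ n₁ → Real.log N / 10 ≤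
        (((Icc 1 N).filter fun k : ℕ => (N : ℝ) / Real.log N ≤ (k : ℝ) ∧ e k ≠ 0).card : ℝ) := by
  -- the constant `Γ`
  obtain ⟨Γ, hΓ0, hΓ2, hΓ3, hΓ4⟩ : ∃ Γ : ℕ, w₀ ≤ Γ ∧
      (2 * |2 * α * ξ + β| + 1) * (2 * |(α : ℝ)| * C₀) < 2 ^ Γ ∧
      2 * ((4 * |2 * α * ξ + β| * B + 1) *
        (|2 * α * ξ + β| * C₀ + |(α : ℝ)| * B ^ 2)) < 2 ^ Γ ∧
      2 * ((4 * |2 * α * ξ + β| * B + 1) * (|(α : ℝ)| * C₀ ^ 2)) < 2 ^ Γ := by
    have hev : ∀ c : ℝ, ∀ᶠ Γ : ℕ in atTop, c < (2 : ℝ) ^ Γ := fun c =>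
      (tendsto_pow_atTop_atTop_of_one_lt (by norm_num)).eventually_gt_atTop c
    exact (((eventually_ge_atTop w₀).and ((hev _).and ((hev _).and (hev _)))).exists)
  have hlog := log_tendsto
  obtain ⟨N₀, hN₀⟩ := eventually_atTop.1 ((hlog.eventually (ev_small Γ)).and
    ((hlog.eventually_ge_atTop 20).and (eventually_ge_atTop (1000 * (Γ + 10)))))
  refine ⟨N₀, fun n₁ e hB hC hV N hN hNn => ?_⟩
  obtain ⟨hsm, hl20, hNG⟩ := hN₀ N hN
  set ℓ := Real.log N with hℓ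
  classical
  set A := (Icc 1 N).filter fun k : ℕ => (N : ℝ) / ℓ ≤ (k : ℝ) ∧ e k ≠ 0 with hA
  by_contra hcon
  push Not at hcon
  have hNr : (1000 * ((Γ : ℝ) + 10)) ≤ N := by exact_mod_cast hNG
  have hΓr : (0 : ℝ) ≤ Γ := Nat.cast_nonneg _
  have hN1 : (10000 : ℝ) ≤ N := by linarith
  have hℓN : ℓ ≤ N / 10 := by
    -- log N ≤ N/100 + log 100, crude
    have h1 := log_le_div N 100 (by linarith) (by norm_num)
    have h2 : Real.log 100 ≤ 99 := by
      have := Real.log_le_sub_one_of_pos (show (0 : ℝ) < 100 by norm_num)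
      linarith
    linarith
  -- the gap length
  set h := ⌈(N : ℝ) / ℓ⌉₊ with hh
  have hh1 : (N : ℝ) / ℓ ≤ h := Nat.le_ceil _
  have hh2 : (h : ℝ) < N / ℓ + 1 := Nat.ceil_lt_add_one (by positivity)
  have hdiv : (N : ℝ) / ℓ ≤ N / 20 := by gcongr
  have hh3 : (h : ℝ) ≤ N / 20 + 1 := by linarith
  have hh4 : 20 * h ≤ N + 20 := by
    have : (20 : ℝ) * h ≤ N + 20 := by linarith
    exact_mod_cast this
  -- a member in the right place
  obtain ⟨a₂, ha1, ha2, ha3⟩ : ∃ a₂, N / 3 ≤ a₂ ∧ a₂ < 2 * (N / 3) + Γ ∧ e a₂ ≠ 0 := by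
    by_contra hno
    push Not at hno
    have h1 := no_big_gap hb hα hξ hq hC (N / 3) Γ (by omega) hno
    have hb2 : (2 : ℝ) ≤ b := by exact_mod_cast hb
    have h2 : (2 : ℝ) ^ Γ ≤ (b : ℝ) ^ Γ := pow_le_pow_left₀ (by norm_num) hb2 Γ
    have h3 : (0 : ℝ) < (b : ℝ) ^ Γ := by positivity
    rw [le_div_iff₀ h3] at h1
    linarith
  -- the left gap
  obtain ⟨u, hu1, hu2, hu3, hu4⟩ := exists_left_gap (fun k => e k ≠ 0) (N / 9) a₂ h ha3 (by
    have h1 : ((Ioc (N / 9) a₂).filter fun k => e k ≠ 0) ⊆ A := by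
      intro k hk
      rw [mem_filter, mem_Ioc] at hk
      rw [hA, mem_filter, mem_Icc]
      refine ⟨⟨by omega, by omega⟩, ?_, hk.2⟩
      have h2 : N < 9 * k := by omega
      have h3 : (N : ℝ) < 9 * k := by exact_mod_cast h2
      linarith
    have h2 := card_le_card h1
    have h3 : ((h * ((Ioc (N / 9) a₂).filter fun k => e k ≠ 0).card : ℕ) : ℝ) <
        ((a₂ - N / 9 : ℕ) : ℝ) := by
      have h4 : (((Ioc (N / 9) a₂).filter fun k => e k ≠ 0).card : ℝ) ≤ ℓ / 10 := by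
        have : (((Ioc (N / 9) a₂).filter fun k => e k ≠ 0).card : ℝ) ≤ A.card := by
          exact_mod_cast h2
        linarith
      have h5 : (2 * N : ℝ) / 9 - 1 ≤ ((a₂ - N / 9 : ℕ) : ℝ) := by
        have h6 : 2 * N ≤ 9 * (a₂ - N / 9) + 9 := by omega
        have h7 : (2 : ℝ) * N ≤ 9 * ((a₂ - N / 9 : ℕ) : ℝ) + 9 := by exact_mod_cast h6
        linarith
      push_cast
      calc (h : ℝ) * (((Ioc (N / 9) a₂).filter fun k => e k ≠ 0).card : ℝ)
          ≤ (N / ℓ + 1) * (ℓ / 10) := by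
            refine mul_le_mul hh2.le h4 (Nat.cast_nonneg _) (by positivity)
        _ = N / 10 + ℓ / 10 := by field_simp
        _ < (2 * N : ℝ) / 9 - 1 := by linarith
        _ ≤ _ := h5
    exact_mod_cast h3)
  -- the constants for `core`
  set L := Γ + 2 * (Nat.log 2 N + 1) with hLdef
  have hLle : (L : ℝ) ≤ Γ + 2 + 4 * ℓ := by
    rw [hLdef]; push_cast
    have := natlog_le N (by omega)
    linarith
  have hLpos : 0 < L := by omega
  have hLr : (0 : ℝ) < L := by exact_mod_cast hLpos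
  have hlogL : Real.log L ≤ Real.log (Γ + 2 + 4 * ℓ) := Real.log_le_log hLr hLle
  have hLogN : (L : ℝ) * ℓ ≤ N := by
    have h1 : Real.log (L * ℓ) ≤ ℓ := by
      rw [Real.log_mul hLr.ne' (by linarith)]
      linarith
    rw [Real.log_le_iff_le_exp (by positivity)] at h1
    refine h1.trans ?_
    rw [hℓ, Real.exp_log (by linarith)]
  have hLh : L ≤ h := by
    have h1 : (L : ℝ) ≤ N / ℓ := by rw [le_div_iff₀ (by linarith)]; exact hLogN
    have : (L : ℝ) ≤ h := h1.trans hh1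
    exact_mod_cast this
  set q := Nat.log 3 (h / L) with hqdef
  have hq0 : h / L ≠ 0 := by
    have := Nat.div_pos hLh hLpos
    omega
  have hq1 : 3 ^ q * L ≤ h := by
    have h1 := Nat.pow_log_le_self 3 hq0
    calc 3 ^ q * L ≤ (h / L) * L := Nat.mul_le_mul_right _ h1
      _ ≤ h := Nat.div_mul_le_self _ _
  have hq2 : h < 3 ^ (q + 1) * L := by
    have h1 : h / L < 3 ^ (q + 1) := Nat.lt_pow_succ_log_self (by norm_num) _
    exact (Nat.div_lt_iff_lt_mul hLpos).1 h1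
  have hq3 : 9 / 10 * ℓ < q := by
    have h1 : (h : ℝ) < 3 ^ (q + 1) * L := by exact_mod_cast hq2
    have h2 : (N : ℝ) / ℓ < 3 ^ (q + 1) * L := lt_of_le_of_lt hh1 h1
    have h3 := Real.log_lt_log (by positivity) h2
    rw [Real.log_mul (by positivity) hLr.ne', Real.log_pow, Real.log_div (by linarith) (by linarith)]
      at h3
    push_cast at h3
    have h4 := log_three_le
    by_contra hcon2
    push Not at hcon2
    have h5 : ((q : ℝ) + 1) * Real.log 3 ≤ (9 / 10 * ℓ + 1) * (11 / 10) :=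
      mul_le_mul (by linarith) h4 (Real.log_nonneg (by norm_num)) (by positivity)
    linarith
  have hcore := core hb hα hξ hq hB hC hΓ3 hΓ4 u h L q (by omega) hu3
    (fun k h1 h2 => by
      have := hu4 k h1 h2
      simpa using this) hLpos (by omega) (by omega) ?_ hq1
    (fun w h1 h2 => hV u (u + w) (by omega) hu3 (by omega) (by omega))
  · have hsub : ((Icc h (u + h)).filter fun k => e k ≠ 0) ⊆ A := by
      intro k hk
      rw [mem_filter, mem_Icc] at hk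
      rw [hA, mem_filter, mem_Icc]
      refine ⟨⟨by omega, by omega⟩, hh1.trans (by exact_mod_cast hk.1.1), hk.2⟩
    have h1 := card_le_card hsub
    have h2 : 2 * q ≤ 9 * (A.card + A.card) := by omega
    have h3 : (2 : ℝ) * q ≤ 9 * (A.card + A.card) := by exact_mod_cast h2
    linarith
  · -- u ^ 2 * 2 ^ Γ ≤ 2 ^ L
    have h1 : u < 2 ^ (Nat.log 2 N + 1) :=
      lt_of_le_of_lt (by omega) (Nat.lt_pow_succ_log_self (by norm_num) N)
    have h2 : (u : ℝ) ≤ 2 ^ (Nat.log 2 N + 1) := by exact_mod_cast h1.le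
    calc (u : ℝ) ^ 2 * 2 ^ Γ ≤ ((2 : ℝ) ^ (Nat.log 2 N + 1)) ^ 2 * 2 ^ Γ := by gcongr
      _ = 2 ^ L := by rw [← pow_mul, ← pow_add, hLdef]; congr 1; ring

end Pool.Agent.V7H16
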