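import Pool.Agent.V7H16.Digits

/-!
# Sparse integer expansions of quadratic irrationals
-/

set_option autoImplicit false

open Finset Filter

namespace Pool.Agent.V7H16

/-- Blocks with sum zero can be removed. -/
lemma reduce (b : ℕ) (N : ℕ) : ∀ (m : ℕ) (e : ℕ → ℤ), ((range N).filter fun k => e k ≠ 0).card = m →
    ∃ e' : ℕ → ℤ, (∀ k, e' k = e k ∨ e' k = 0) ∧ S b e' N = S b e N ∧
      ∀ u M, u < M → M ≤ N → e' u ≠ 0 → S b e' M ≠ S b e' u := by
  classical
  intro m
  induction m using Nat.strong_induction_on with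
  | _ m ih =>
    intro e he
    by_cases hND : ∀ u M, u < M → M ≤ N → e u ≠ 0 → S b e M ≠ S b e u
    · exact ⟨e, fun k => Or.inl rfl, rfl, hND⟩
    · push Not at hND
      obtain ⟨u, M, huM, hMN, hu, hS⟩ := hND
      set e₁ : ℕ → ℤ := fun k => if u ≤ k ∧ k < M then 0 else e k with he1
      have hsub : ((range N).filter fun k => e₁ k ≠ 0) ⊂ ((range N).filter fun k => e k ≠ 0) := by
        rw [ssubset_iff_of_subset]
        · refine ⟨u, ?_, ?_⟩
          · rw [mem_filter, mem_range]; exact ⟨by omega, hu⟩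
          · rw [mem_filter, mem_range]
            intro h
            apply h.2
            simp only [he1]
            rw [if_pos ⟨le_rfl, huM⟩]
        · intro k hk
          rw [mem_filter] at hk ⊢
          refine ⟨hk.1, fun h0 => hk.2 ?_⟩
          simp only [he1]
          split_ifs
          · rfl
          · exact h0
      have hlt := card_lt_card hsub
      rw [he] at hlt
      obtain ⟨e', h1, h2, h3⟩ := ih _ hlt e₁ rfl
      refine ⟨e', fun k => ?_, ?_, h3⟩
      · rcases h1 k with h | h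
        · by_cases hk : u ≤ k ∧ k < M
          · right; rw [h]; simp only [he1]; rw [if_pos hk]
          · left; rw [h]; simp only [he1]; rw [if_neg hk]
        · right; exact h
      · rw [h2]
        -- the sums of `e₁` and `e`
        have hu1 : S b e₁ u = S b e u := by
          unfold S
          refine sum_congr rfl fun k hk => ?_
          rw [mem_range] at hk
          simp only [he1]
          rw [if_neg (by omega)]
        have hM1 : S b e₁ M = S b e₁ u := by
          refine S_const huM.le fun k hk1 hk2 => ?_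
          simp only [he1]
          rw [if_pos ⟨hk1, hk2⟩]
        have hN1 : S b e₁ N - S b e₁ M = S b e N - S b e M := by
          unfold S
          rw [← sum_Ico_eq_sub _ hMN, ← sum_Ico_eq_sub _ hMN]
          refine sum_congr rfl fun k hk => ?_
          rw [mem_Ico] at hk
          simp only [he1]
          rw [if_neg (by omega)]
        linarith

/-- **Sparse expansions.** -/
theorem sparse_local {b : ℕ} (hb : 2 ≤ b) {A B C : ℤ} (hA : A ≠ 0) {x : ℝ} (hx : Irrational x)
    (hq : (A : ℝ) * x ^ 2 + B * x + C = 0) (D : ℕ) :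
    ∃ N₀ : ℕ, ∀ N : ℕ, N₀ ≤ N → ∀ e : ℕ → ℤ, (∀ k ≤ N, |e k| ≤ D) →
      |x - ∑ k ∈ range (N + 1), (e k : ℝ) / (b : ℝ) ^ k| ≤ D / (b : ℝ) ^ N →
      Real.log N / 10 ≤
        (((Icc 1 N).filter fun k : ℕ => (N : ℝ) / Real.log N ≤ (k : ℝ) ∧ e k ≠ 0).card : ℝ) := by
  have hb0 : (0 : ℝ) < b := by positivity
  have hb1 : (1 : ℝ) ≤ b := by exact_mod_cast (by omega : 1 ≤ b)
  obtain ⟨N₀, hN₀⟩ := local_count hb hA hx hq D (b * D + 2 * D) 1
  refine ⟨N₀, fun N hN e he hclose => ?_⟩
  classical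
  set e₀ : ℕ → ℤ := fun k => if k ≤ N then e k else 0 with he0
  have hS0 : S b e₀ (N + 1) = ∑ k ∈ range (N + 1), (e k : ℝ) / (b : ℝ) ^ k := by
    unfold S
    refine sum_congr rfl fun k hk => ?_
    rw [mem_range] at hk
    simp only [he0]
    rw [if_pos (by omega)]
  obtain ⟨e', h1, h2, h3⟩ := reduce b (N + 1) _ e₀ rfl
  have hB : ∀ k, |(e' k : ℝ)| ≤ (D : ℝ) := by
    intro k
    have h4 : |e' k| ≤ (D : ℤ) := by
      rcases h1 k with h | h
      · rw [h]
        simp only [he0]
        split_ifs with h5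
        · exact he k h5
        · simp
      · rw [h]; simp
    exact_mod_cast h4
  have hC : ∀ n ≤ N + 1, |x - S b e' n| ≤ ((b : ℝ) * D + 2 * D) / (b : ℝ) ^ n := by
    intro n hn
    have h4 := S_sub hb hB hn
    rw [h2, hS0] at h4
    have h5 : |x - S b e' n| ≤ |x - ∑ k ∈ range (N + 1), (e k : ℝ) / (b : ℝ) ^ k| +
        |∑ k ∈ range (N + 1), (e k : ℝ) / (b : ℝ) ^ k - S b e' n| := by
      have := abs_add_le (x - ∑ k ∈ range (N + 1), (e k : ℝ) / (b : ℝ) ^ k)
        (∑ k ∈ range (N + 1), (e k : ℝ) / (b : ℝ) ^ k - S b e' n)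
      rwa [sub_add_sub_cancel] at this
    have h6 : (D : ℝ) / (b : ℝ) ^ N ≤ b * D / (b : ℝ) ^ n := by
      rw [div_le_div_iff₀ (by positivity) (by positivity)]
      have h7 : (b : ℝ) ^ n ≤ (b : ℝ) ^ (N + 1) := pow_le_pow_right₀ hb1 hn
      calc (D : ℝ) * (b : ℝ) ^ n ≤ D * (b : ℝ) ^ (N + 1) := by gcongr
        _ = b * D * (b : ℝ) ^ N := by rw [pow_succ]; ring
    have h8 : ((b : ℝ) * D + 2 * D) / (b : ℝ) ^ n = b * D / (b : ℝ) ^ n + 2 * D / (b : ℝ) ^ n := by
      rw [add_div]
    rw [h8]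
    linarith
  have h := hN₀ (N + 1) e' hB hC (fun u M _ hu huM hM => h3 u M (by omega) hM hu) N hN (by omega)
  refine h.trans ?_
  have hsub : ((Icc 1 N).filter fun k : ℕ => (N : ℝ) / Real.log N ≤ (k : ℝ) ∧ e' k ≠ 0) ⊆
      (Icc 1 N).filter fun k : ℕ => (N : ℝ) / Real.log N ≤ (k : ℝ) ∧ e k ≠ 0 := by
    intro k hk
    rw [mem_filter, mem_Icc] at hk ⊢
    refine ⟨hk.1, hk.2.1, fun h0 => hk.2.2 ?_⟩
    rcases h1 k with h4 | h4
    · rw [h4]
      simp only [he0]
      rw [if_pos hk.1.2]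
      exact h0
    · exact h4
  exact_mod_cast card_le_card hsub

end Pool.Agent.V7H16
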