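import Pool.Agent.V7H16.Count
import Pool.Agent.V7H16.Sparse

/-!
# The local counting theorem, uniformly in the elements of a quadratic field of bounded height
-/

set_option autoImplicit false

open Finset Filter

namespace Pool.Agent.V7H16

lemma ev_small2 (c δ : ℝ) (hc : 0 ≤ c) (hδ : 0 < δ) : ∀ᶠ x : ℝ in atTop,
    Real.log x + Real.log (c + 4 * x) + 11 / 10 ≤ δ * x / 100 := by
  have h400 : 0 < 400 / δ := by positivity
  have h1600 : 0 < 1600 / δ := by positivity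
  filter_upwards [eventually_ge_atTop (max 1
    (1000 / δ * (Real.log (400 / δ) + Real.log (1600 / δ) + c / (1600 / δ) + 11 / 10)))] with x hx
  have h1 : 1 ≤ x := (le_max_left _ _).trans hx
  have h2 := (le_max_right _ _).trans hx
  have h3 := log_le_div x (400 / δ) (by linarith) h400
  have h4 := log_le_div (c + 4 * x) (1600 / δ) (by positivity) h1600
  have h5 : (c + 4 * x) / (1600 / δ) = c / (1600 / δ) + δ * x / 400 := by
    field_simp
    ring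
  have h6 : x / (400 / δ) = δ * x / 400 := by field_simp
  rw [h5] at h4
  rw [h6] at h3
  have h7 : Real.log (400 / δ) + Real.log (1600 / δ) + c / (1600 / δ) + 11 / 10 ≤ δ * x / 1000 := by
    have h8 : δ / 1000 * (1000 / δ * (Real.log (400 / δ) + Real.log (1600 / δ) + c / (1600 / δ) +
        11 / 10)) ≤ δ / 1000 * x := mul_le_mul_of_nonneg_left h2 (by positivity)
    have h9 : δ / 1000 * (1000 / δ * (Real.log (400 / δ) + Real.log (1600 / δ) + c / (1600 / δ) +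
        11 / 10)) = Real.log (400 / δ) + Real.log (1600 / δ) + c / (1600 / δ) + 11 / 10 := by
      field_simp
    rw [h9] at h8
    linarith
  have h10 : 0 < δ * x := by positivity
  linarith

/-- **Local counting theorem**, for the multiples `t ξ` of a quadratic irrational `ξ` and for
expansions with large coefficients. -/
theorem local_count2 {b : ℕ} (hb : 2 ≤ b) {α β γ : ℤ} (hα : α ≠ 0) {ξ : ℝ} (hξ : Irrational ξ)
    (hq : (α : ℝ) * ξ ^ 2 + β * ξ + γ = 0) (δ : ℝ) (hδ0 : 0 < δ) (hδ1 : δ ≤ 1) (κ : ℕ) :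
    ∃ N₀ : ℕ, ∀ N : ℕ, N₀ ≤ N → ∀ (n₁ g : ℕ) (t : ℤ) (e : ℕ → ℤ), N ≤ n₁ →
      (g : ℝ) ≤ κ * (N : ℝ) ^ (1 - δ) → t ≠ 0 → |(t : ℝ)| ≤ 2 ^ g →
      (∀ k, |(e k : ℝ)| ≤ 2 ^ g) →
      (∀ n ≤ n₁, |t * ξ - S b e n| ≤ 2 ^ g / (b : ℝ) ^ n) →
      (∀ u M, e u ≠ 0 → u < M → M ≤ n₁ → S b e M ≠ S b e u) →
      δ * Real.log N / 10 ≤
        (((Icc 1 N).filter fun k : ℕ => (N : ℝ) / Real.log N ≤ (k : ℝ) ∧ e k ≠ 0).card : ℝ) := by
  -- the constant `c₀`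
  obtain ⟨c₀, hc2, hc3, hc4⟩ : ∃ c₀ : ℕ,
      (2 * |2 * α * ξ + β| + 1) * (2 * |(α : ℝ)|) < 2 ^ c₀ ∧
      2 * ((4 * |2 * α * ξ + β| + 1) * (|2 * α * ξ + β| + |(α : ℝ)|)) < 2 ^ c₀ ∧
      2 * ((4 * |2 * α * ξ + β| + 1) * |(α : ℝ)|) < 2 ^ c₀ := by
    have hev : ∀ c : ℝ, ∀ᶠ Γ : ℕ in atTop, c < (2 : ℝ) ^ Γ := fun c =>
      (tendsto_pow_atTop_atTop_of_one_lt (by norm_num)).eventually_gt_atTop c
    exact ((hev _).and ((hev _).and (hev _))).exists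
  have hlog := log_tendsto
  obtain ⟨N₀, hN₀⟩ := eventually_atTop.1
    ((hlog.eventually (ev_small2 (4 * κ + c₀ + 2) δ (by positivity) hδ0)).and
    ((hlog.eventually_ge_atTop 2000).and (eventually_ge_atTop 10000)))
  refine ⟨N₀, fun N hN n₁ g t e hNn hg ht htg hB hC hV => ?_⟩
  obtain ⟨hsm, hl20, hN1'⟩ := hN₀ N hN
  set ℓ := Real.log N with hℓ
  have hN1 : (10000 : ℝ) ≤ N := by exact_mod_cast hN1'
  have hNpow : (1 : ℝ) ≤ (N : ℝ) ^ (1 - δ) := Real.one_le_rpow (by linarith) (by linarith)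
  -- `Γ` and `L`
  set Γ := 4 * g + c₀ with hΓdef
  set L := Γ + 2 * (Nat.log 2 N + 1) with hLdef
  have hLle : (L : ℝ) ≤ (N : ℝ) ^ (1 - δ) * (4 * κ + c₀ + 2 + 4 * ℓ) := by
    have h1 := natlog_le N (by omega)
    have h2 : (L : ℝ) ≤ 4 * (κ * (N : ℝ) ^ (1 - δ)) + c₀ + 2 + 4 * ℓ := by
      rw [hLdef, hΓdef]; push_cast
      linarith
    have h3 : (0 : ℝ) ≤ c₀ + 2 + 4 * ℓ := by
      have : (0 : ℝ) ≤ c₀ := Nat.cast_nonneg _
      linarith
    nlinarith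
  have hLpos : 0 < L := by omega
  have hLr : (0 : ℝ) < L := by exact_mod_cast hLpos
  have hcpos : (0 : ℝ) < 4 * κ + c₀ + 2 + 4 * ℓ := by positivity
  have hlogL : Real.log L ≤ (1 - δ) * ℓ + Real.log (4 * κ + c₀ + 2 + 4 * ℓ) := by
    refine (Real.log_le_log hLr hLle).trans ?_
    rw [Real.log_mul (by linarith) hcpos.ne', Real.log_rpow (by linarith)]
  have hLogN : (L : ℝ) * ℓ ≤ N := by
    have h1 : Real.log (L * ℓ) ≤ ℓ := by
      rw [Real.log_mul hLr.ne' (by linarith)]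
      have : δ * ℓ / 100 ≤ δ * ℓ := by
        have : 0 < δ * ℓ := by positivity
        linarith
      linarith
    rw [Real.log_le_iff_le_exp (by positivity)] at h1
    refine h1.trans ?_
    rw [hℓ, Real.exp_log (by linarith)]
  have hNG : 1000 * (Γ + 10) ≤ N := by
    have h1 : (L : ℝ) * 2000 ≤ N := (mul_le_mul_of_nonneg_left hl20 hLr.le).trans hLogN
    have h2 : L * 2000 ≤ N := by exact_mod_cast h1
    have h3 : 13 ≤ Nat.log 2 N := by
      have : 2 ^ 13 ≤ N := by omega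
      exact Nat.le_log_of_pow_le (by norm_num) this
    omega
  -- the inequalities for `Γ`
  have h2g : (1 : ℝ) ≤ 2 ^ g := one_le_pow₀ (by norm_num)
  have hθ' : 2 * (α : ℝ) * (t * ξ) + ((β * t : ℤ) : ℝ) = t * (2 * α * ξ + β) := by
    push_cast; ring
  have hθabs : |2 * (α : ℝ) * (t * ξ) + ((β * t : ℤ) : ℝ)| ≤ 2 ^ g * |2 * α * ξ + β| := by
    rw [hθ', abs_mul]
    exact mul_le_mul_of_nonneg_right htg (abs_nonneg _)
  have hΓpow : (2 : ℝ) ^ Γ = 2 ^ g * 2 ^ g * (2 ^ g * 2 ^ g) * 2 ^ c₀ := by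
    rw [hΓdef, pow_add]
    congr 1
    rw [← pow_add, ← pow_add]
    congr 1
    omega
  have hΓ2 : (2 * |2 * (α : ℝ) * (t * ξ) + ((β * t : ℤ) : ℝ)| + 1) * (2 * |(α : ℝ)| * 2 ^ g) <
      2 ^ Γ := by
    calc (2 * |2 * (α : ℝ) * (t * ξ) + ((β * t : ℤ) : ℝ)| + 1) * (2 * |(α : ℝ)| * 2 ^ g)
        ≤ (2 * (2 ^ g * |2 * α * ξ + β|) + 2 ^ g) * (2 * |(α : ℝ)| * 2 ^ g) := by gcongr
      _ = 2 ^ g * 2 ^ g * ((2 * |2 * α * ξ + β| + 1) * (2 * |(α : ℝ)|)) := by ring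
      _ < 2 ^ g * 2 ^ g * 2 ^ c₀ := mul_lt_mul_of_pos_left hc2 (by positivity)
      _ ≤ 2 ^ g * 2 ^ g * (2 ^ g * 2 ^ g) * 2 ^ c₀ := by
          apply mul_le_mul_of_nonneg_right _ (by positivity)
          exact le_mul_of_one_le_right (by positivity) (one_le_mul_of_one_le_of_one_le h2g h2g)
      _ = 2 ^ Γ := hΓpow.symm
  have hΓ3 : 2 * ((4 * |2 * (α : ℝ) * (t * ξ) + ((β * t : ℤ) : ℝ)| * 2 ^ g + 1) *
      (|2 * (α : ℝ) * (t * ξ) + ((β * t : ℤ) : ℝ)| * 2 ^ g + |(α : ℝ)| * (2 ^ g) ^ 2)) < 2 ^ Γ := by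
    calc 2 * ((4 * |2 * (α : ℝ) * (t * ξ) + ((β * t : ℤ) : ℝ)| * 2 ^ g + 1) *
      (|2 * (α : ℝ) * (t * ξ) + ((β * t : ℤ) : ℝ)| * 2 ^ g + |(α : ℝ)| * (2 ^ g) ^ 2))
        ≤ 2 * ((4 * (2 ^ g * |2 * α * ξ + β|) * 2 ^ g + 2 ^ g * 2 ^ g) *
          ((2 ^ g * |2 * α * ξ + β|) * 2 ^ g + |(α : ℝ)| * (2 ^ g) ^ 2)) := by
          have h1 : (1 : ℝ) ≤ 2 ^ g * 2 ^ g := one_le_mul_of_one_le_of_one_le h2g h2g
          gcongr
      _ = 2 ^ g * 2 ^ g * (2 ^ g * 2 ^ g) *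
          (2 * ((4 * |2 * α * ξ + β| + 1) * (|2 * α * ξ + β| + |(α : ℝ)|))) := by ring
      _ < 2 ^ g * 2 ^ g * (2 ^ g * 2 ^ g) * 2 ^ c₀ := mul_lt_mul_of_pos_left hc3 (by positivity)
      _ = 2 ^ Γ := hΓpow.symm
  have hΓ4 : 2 * ((4 * |2 * (α : ℝ) * (t * ξ) + ((β * t : ℤ) : ℝ)| * 2 ^ g + 1) *
      (|(α : ℝ)| * (2 ^ g) ^ 2)) < 2 ^ Γ := by
    calc 2 * ((4 * |2 * (α : ℝ) * (t * ξ) + ((β * t : ℤ) : ℝ)| * 2 ^ g + 1) *
      (|(α : ℝ)| * (2 ^ g) ^ 2))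
        ≤ 2 * ((4 * (2 ^ g * |2 * α * ξ + β|) * 2 ^ g + 2 ^ g * 2 ^ g) *
          (|(α : ℝ)| * (2 ^ g) ^ 2)) := by
          have h1 : (1 : ℝ) ≤ 2 ^ g * 2 ^ g := one_le_mul_of_one_le_of_one_le h2g h2g
          gcongr
      _ = 2 ^ g * 2 ^ g * (2 ^ g * 2 ^ g) *
          (2 * ((4 * |2 * α * ξ + β| + 1) * |(α : ℝ)|)) := by ring
      _ < 2 ^ g * 2 ^ g * (2 ^ g * 2 ^ g) * 2 ^ c₀ := mul_lt_mul_of_pos_left hc4 (by positivity)
      _ = 2 ^ Γ := hΓpow.symm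
  have hξ' : Irrational ((t : ℝ) * ξ) := hξ.intCast_mul ht
  have hq' : (α : ℝ) * (t * ξ) ^ 2 + ((β * t : ℤ) : ℝ) * (t * ξ) + ((γ * t ^ 2 : ℤ) : ℝ) = 0 := by
    push_cast
    linear_combination (t : ℝ) ^ 2 * hq
  classical
  set A := (Icc 1 N).filter fun k : ℕ => (N : ℝ) / ℓ ≤ (k : ℝ) ∧ e k ≠ 0 with hA
  by_contra hcon
  push Not at hcon
  have hcon' : (A.card : ℝ) < ℓ / 10 := by
    have h1 : δ * ℓ ≤ 1 * ℓ := mul_le_mul_of_nonneg_right hδ1 (by linarith)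
    linarith
  have hNr : (1000 * ((Γ : ℝ) + 10)) ≤ N := by exact_mod_cast hNG
  have hΓr : (0 : ℝ) ≤ Γ := Nat.cast_nonneg _
  have hℓN : ℓ ≤ N / 10 := by
    have h1 := log_le_div N 100 (by linarith) (by norm_num)
    have h2 : Real.log 100 ≤ 99 := by
      have := Real.log_le_sub_one_of_pos (show (0 : ℝ) < 100 by norm_num)
      linarith
    linarith
  -- the gap length
  set h := ⌈(N : ℝ) / ℓ⌉₊ with hh
  have hh1 : (N : ℝ) / ℓ ≤ h := Nat.le_ceil _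
  have hh2 : (h : ℝ) < N / ℓ + 1 := Nat.ceil_lt_add_one (by positivity)
  have hdiv : (N : ℝ) / ℓ ≤ N / 20 := by
    apply div_le_div_of_nonneg_left (by linarith) (by norm_num) (by linarith)
  have hh3 : (h : ℝ) ≤ N / 20 + 1 := by linarith
  have hh4 : 20 * h ≤ N + 20 := by
    have : (20 : ℝ) * h ≤ N + 20 := by linarith
    exact_mod_cast this
  -- a member in the right place
  obtain ⟨a₂, ha1, ha2, ha3⟩ : ∃ a₂, N / 3 ≤ a₂ ∧ a₂ < 2 * (N / 3) + Γ ∧ e a₂ ≠ 0 := by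
    by_contra hno
    push Not at hno
    have h1 := no_big_gap hb hα hξ' hq' hC (N / 3) Γ (by omega) hno
    have hb2 : (2 : ℝ) ≤ b := by exact_mod_cast hb
    have h2 : (2 : ℝ) ^ Γ ≤ (b : ℝ) ^ Γ := pow_le_pow_left₀ (by norm_num) hb2 Γ
    have h3 : (0 : ℝ) < (b : ℝ) ^ Γ := by positivity
    rw [le_div_iff₀ h3] at h1
    linarith
  -- the left gap
  obtain ⟨u, hu1, hu2, hu3, hu4⟩ := exists_left_gap (fun k => e k ≠ 0) (N / 9) a₂ h ha3 (by
    have h1 : ((Ioc (N / 9) a₂).filter fun k => e k ≠ 0) ⊆ A := by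
      intro k hk
      rw [mem_filter, mem_Ioc] at hk
      rw [hA, mem_filter, mem_Icc]
      refine ⟨⟨by omega, by omega⟩, ?_, hk.2⟩
      have h2 : N < 9 * k := by omega
      have h3 : (N : ℝ) < 9 * k := by exact_mod_cast h2
      linarith
    have h2 := card_le_card h1
    have h3 : ((h * ((Ioc (N / 9) a₂).filter fun k => e k ≠ 0).card : ℕ) : ℝ) <
        ((a₂ - N / 9 : ℕ) : ℝ) := by
      have h4 : (((Ioc (N / 9) a₂).filter fun k => e k ≠ 0).card : ℝ) ≤ ℓ / 10 := by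
        have : (((Ioc (N / 9) a₂).filter fun k => e k ≠ 0).card : ℝ) ≤ A.card := by
          exact_mod_cast h2
        linarith
      have h5 : (2 * N : ℝ) / 9 - 1 ≤ ((a₂ - N / 9 : ℕ) : ℝ) := by
        have h6 : 2 * N ≤ 9 * (a₂ - N / 9) + 9 := by omega
        have h7 : (2 : ℝ) * N ≤ 9 * ((a₂ - N / 9 : ℕ) : ℝ) + 9 := by exact_mod_cast h6
        linarith
      push_cast
      calc (h : ℝ) * (((Ioc (N / 9) a₂).filter fun k => e k ≠ 0).card : ℝ)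
          ≤ (N / ℓ + 1) * (ℓ / 10) := by
            refine mul_le_mul hh2.le h4 (Nat.cast_nonneg _) (by positivity)
        _ = N / 10 + ℓ / 10 := by field_simp
        _ < (2 * N : ℝ) / 9 - 1 := by linarith
        _ ≤ _ := h5
    exact_mod_cast h3)
  -- the constants for `core`
  have hLh : L ≤ h := by
    have h1 : (L : ℝ) ≤ N / ℓ := by rw [le_div_iff₀ (by linarith)]; exact hLogN
    have : (L : ℝ) ≤ h := h1.trans hh1
    exact_mod_cast this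
  set q := Nat.log 3 (h / L) with hqdef
  have hq0 : h / L ≠ 0 := by
    have := Nat.div_pos hLh hLpos
    omega
  have hq1 : 3 ^ q * L ≤ h := by
    have h1 := Nat.pow_log_le_self 3 hq0
    calc 3 ^ q * L ≤ (h / L) * L := Nat.mul_le_mul_right _ h1
      _ ≤ h := Nat.div_mul_le_self _ _
  have hq2 : h < 3 ^ (q + 1) * L := by
    have h1 : h / L < 3 ^ (q + 1) := Nat.lt_pow_succ_log_self (by norm_num) _
    exact (Nat.div_lt_iff_lt_mul hLpos).1 h1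
  have hq3 : 9 / 10 * (δ * ℓ) < q := by
    have h1 : (h : ℝ) < 3 ^ (q + 1) * L := by exact_mod_cast hq2
    have h2 : (N : ℝ) / ℓ < 3 ^ (q + 1) * L := lt_of_le_of_lt hh1 h1
    have h3 := Real.log_lt_log (by positivity) h2
    rw [Real.log_mul (by positivity) hLr.ne', Real.log_pow, Real.log_div (by linarith) (by linarith)]
      at h3
    push_cast at h3
    have h4 := log_three_le
    by_contra hcon2
    push Not at hcon2
    have h5 : ((q : ℝ) + 1) * Real.log 3 ≤ (9 / 10 * (δ * ℓ) + 1) * (11 / 10) :=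
      mul_le_mul (by linarith) h4 (Real.log_nonneg (by norm_num)) (by positivity)
    linarith
  have hcore := core hb hα hξ' hq' hB hC hΓ3 hΓ4 u h L q (by omega) hu3
    (fun k h1 h2 => by
      have := hu4 k h1 h2
      simpa using this) hLpos (by omega) (by omega) ?_ hq1
    (fun w h1 h2 => hV u (u + w) hu3 (by omega) (by omega))
  · have hsub : ((Icc h (u + h)).filter fun k => e k ≠ 0) ⊆ A := by
      intro k hk
      rw [mem_filter, mem_Icc] at hk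
      rw [hA, mem_filter, mem_Icc]
      refine ⟨⟨by omega, by omega⟩, hh1.trans (by exact_mod_cast hk.1.1), hk.2⟩
    have h1 := card_le_card hsub
    have h2 : 2 * q ≤ 9 * (A.card + A.card) := by omega
    have h3 : (2 : ℝ) * q ≤ 9 * (A.card + A.card) := by exact_mod_cast h2
    linarith
  · -- u ^ 2 * 2 ^ Γ ≤ 2 ^ L
    have h1 : u < 2 ^ (Nat.log 2 N + 1) :=
      lt_of_le_of_lt (by omega) (Nat.lt_pow_succ_log_self (by norm_num) N)
    have h2 : (u : ℝ) ≤ 2 ^ (Nat.log 2 N + 1) := by exact_mod_cast h1.le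
    calc (u : ℝ) ^ 2 * 2 ^ Γ ≤ ((2 : ℝ) ^ (Nat.log 2 N + 1)) ^ 2 * 2 ^ Γ := by gcongr
      _ = 2 ^ L := by rw [← pow_mul, ← pow_add, hLdef]; congr 1; ring

end Pool.Agent.V7H16
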