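import Pool.Agent.V7H16.Global

/-!
# Changes of digits of quadratic irrationals
-/

set_option autoImplicit false

open Finset Filter

namespace Pool.Agent.V7H16

/-- the `k`-th digit of `x` after the point in base `b` -/
noncomputable def dig (b : ℕ) (x : ℝ) (k : ℕ) : ℤ := ⌊x * (b : ℝ) ^ k⌋ % (b : ℤ)

lemma dig_eq {b : ℕ} (hb : 2 ≤ b) (x : ℝ) (k : ℕ) :
    dig b x (k + 1) = ⌊x * (b : ℝ) ^ (k + 1)⌋ - b * ⌊x * (b : ℝ) ^ k⌋ := by
  have hb0 : (0 : ℝ) < b := by positivity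
  have hbz : (0 : ℤ) < b := by exact_mod_cast (by omega : 0 < b)
  have h1 := Int.floor_le (x * (b : ℝ) ^ k)
  have h2 := Int.lt_floor_add_one (x * (b : ℝ) ^ k)
  set Q := ⌊x * (b : ℝ) ^ k⌋ with hQ
  have h3 : (b : ℤ) * Q ≤ ⌊x * (b : ℝ) ^ (k + 1)⌋ := by
    rw [Int.le_floor]
    push_cast
    rw [pow_succ]
    nlinarith
  have h4 : ⌊x * (b : ℝ) ^ (k + 1)⌋ < (b : ℤ) * Q + b := by
    rw [Int.floor_lt]
    push_cast
    rw [pow_succ]
    nlinarith
  unfold dig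
  have h5 : ⌊x * (b : ℝ) ^ (k + 1)⌋ = (⌊x * (b : ℝ) ^ (k + 1)⌋ - b * Q) + b * Q := by ring
  conv_lhs => rw [h5]
  rw [Int.add_mul_emod_self_left]
  exact Int.emod_eq_of_lt (by linarith) (by linarith)

lemma dig_bounds {b : ℕ} (hb : 2 ≤ b) (x : ℝ) (k : ℕ) : 0 ≤ dig b x k ∧ dig b x k ≤ b - 1 := by
  have hbz : (0 : ℤ) < b := by exact_mod_cast (by omega : 0 < b)
  unfold dig
  constructor
  · exact Int.emod_nonneg _ hbz.ne'
  · have := Int.emod_lt_of_pos ⌊x * (b : ℝ) ^ k⌋ hbz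
    omega

/-- The sequence of differences of consecutive digits. -/
noncomputable def de (b : ℕ) (x : ℝ) : ℕ → ℤ
  | 0 => 0
  | 1 => ⌊x * (b : ℝ) ^ 1⌋ - ⌊x * (b : ℝ) ^ 0⌋
  | (k + 2) => dig b x (k + 2) - dig b x (k + 1)

lemma S_de {b : ℕ} (hb : 2 ≤ b) (x : ℝ) (n : ℕ) :
    S b (de b x) (n + 2) =
      ((⌊x * (b : ℝ) ^ (n + 1)⌋ : ℝ) - ⌊x * (b : ℝ) ^ n⌋) / (b : ℝ) ^ (n + 1) := by
  have hb0 : (0 : ℝ) < b := by positivity
  induction n with
  | zero =>
    unfold S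
    rw [sum_range_succ, sum_range_succ, sum_range_zero]
    simp only [de]
    push_cast
    simp
  | succ n ih =>
    have h1 : S b (de b x) (n + 1 + 2) = S b (de b x) (n + 2) +
        (de b x (n + 2) : ℝ) / (b : ℝ) ^ (n + 2) := by
      unfold S
      rw [sum_range_succ]
    rw [h1, ih]
    have h2 : de b x (n + 2) = dig b x (n + 2) - dig b x (n + 1) := rfl
    rw [h2, dig_eq hb x n, dig_eq hb x (n + 1)]
    push_cast
    field_simp
    ring

section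
variable {b : ℕ} (hb : 2 ≤ b) (x : ℝ)
include hb

lemma de_close (n : ℕ) :
    |(x - x / b) - S b (de b x) n| ≤ (b * (|x - x / b| + 1)) / (b : ℝ) ^ n := by
  have hb0 : (0 : ℝ) < b := by positivity
  have hb1 : (1 : ℝ) ≤ b := by exact_mod_cast (by omega : 1 ≤ b)
  rcases n with _ | _ | n
  · have : S b (de b x) 0 = 0 := by simp [S]
    rw [this, sub_zero, pow_zero, div_one]
    have h1 : |x - x / b| * 1 ≤ |x - x / b| * b := mul_le_mul_of_nonneg_left hb1 (abs_nonneg _)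
    nlinarith
  · have : S b (de b x) 1 = 0 := by simp [S, de]
    have h1 : b * (|x - x / b| + 1) / b = |x - x / b| + 1 := by field_simp
    simp only [zero_add, pow_one, this, sub_zero]
    rw [h1]
    linarith
  · rw [S_de hb]
    have h1 : (x - x / b) - ((⌊x * (b : ℝ) ^ (n + 1)⌋ : ℝ) - ⌊x * (b : ℝ) ^ n⌋) / (b : ℝ) ^ (n + 1) =
        (Int.fract (x * (b : ℝ) ^ (n + 1)) - Int.fract (x * (b : ℝ) ^ n)) / (b : ℝ) ^ (n + 1) := by
      unfold Int.fract
      rw [pow_succ]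
      field_simp
      ring
    rw [h1, abs_div, abs_of_pos (show (0 : ℝ) < (b : ℝ) ^ (n + 1) by positivity),
      div_le_div_iff₀ (by positivity) (by positivity)]
    have h2 : |Int.fract (x * (b : ℝ) ^ (n + 1)) - Int.fract (x * (b : ℝ) ^ n)| ≤ 1 := by
      rw [abs_le]
      have h3 := Int.fract_nonneg (x * (b : ℝ) ^ (n + 1))
      have h4 := Int.fract_lt_one (x * (b : ℝ) ^ (n + 1))
      have h5 := Int.fract_nonneg (x * (b : ℝ) ^ n)
      have h6 := Int.fract_lt_one (x * (b : ℝ) ^ n)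
      constructor <;> linarith
    calc |Int.fract (x * (b : ℝ) ^ (n + 1)) - Int.fract (x * (b : ℝ) ^ n)| * (b : ℝ) ^ (n + 1 + 1)
        ≤ 1 * (b : ℝ) ^ (n + 1 + 1) := mul_le_mul_of_nonneg_right h2 (by positivity)
      _ = (b * 1) * (b : ℝ) ^ (n + 1) := by rw [pow_succ]; ring
      _ ≤ (b * (|x - x / b| + 1)) * (b : ℝ) ^ (n + 1) := by
          gcongr
          linarith [abs_nonneg (x - x / b)]

lemma de_far (u : ℕ) (hu : de b x (u + 2) ≠ 0) :
    1 / (b : ℝ) ^ (u + 3) ≤ |(x - x / b) - S b (de b x) (u + 2)| := by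
  have hb0 : (0 : ℝ) < b := by positivity
  have hb1 : (1 : ℝ) ≤ b := by exact_mod_cast (by omega : 1 ≤ b)
  rw [S_de hb]
  have h1 : (x - x / b) - ((⌊x * (b : ℝ) ^ (u + 1)⌋ : ℝ) - ⌊x * (b : ℝ) ^ u⌋) / (b : ℝ) ^ (u + 1) =
      (Int.fract (x * (b : ℝ) ^ (u + 1)) - Int.fract (x * (b : ℝ) ^ u)) / (b : ℝ) ^ (u + 1) := by
    unfold Int.fract
    rw [pow_succ]
    field_simp
    ring
  rw [h1, abs_div, abs_of_pos (show (0 : ℝ) < (b : ℝ) ^ (u + 1) by positivity)]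
  set t₀ := Int.fract (x * (b : ℝ) ^ u) with ht0
  set t₁ := Int.fract (x * (b : ℝ) ^ (u + 1)) with ht1
  set t₂ := Int.fract (x * (b : ℝ) ^ (u + 2)) with ht2
  have hd1 : (b : ℝ) * t₀ = t₁ + dig b x (u + 1) := by
    rw [dig_eq hb, ht0, ht1]; unfold Int.fract; push_cast; rw [pow_succ]; ring
  have hd2 : (b : ℝ) * t₁ = t₂ + dig b x (u + 2) := by
    rw [dig_eq hb x (u + 1), ht1, ht2]; unfold Int.fract; push_cast; rw [pow_succ _ (u + 1)]; ring
  have hde : ((de b x (u + 2) : ℤ) : ℝ) = dig b x (u + 2) - dig b x (u + 1) := by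
    have : de b x (u + 2) = dig b x (u + 2) - dig b x (u + 1) := rfl
    rw [this]; push_cast; ring
  have hb3 := dig_bounds hb x (u + 2)
  have hb4 : (0 : ℝ) ≤ dig b x (u + 2) := by exact_mod_cast hb3.1
  have hb5 : (dig b x (u + 2) : ℝ) ≤ b - 1 := by exact_mod_cast hb3.2
  have ht2a : 0 ≤ t₂ := Int.fract_nonneg _
  have ht2b : t₂ < 1 := Int.fract_lt_one _
  have hmain : 1 ≤ (b : ℝ) * |(b : ℝ) * (t₁ - t₀)| := by
    have h2 : (b : ℝ) * ((b : ℝ) * (t₁ - t₀)) =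
        b * (de b x (u + 2) : ℝ) + (b - 1) * t₂ - dig b x (u + 2) := by
      rw [hde]
      have : (b : ℝ) * ((b : ℝ) * (t₁ - t₀)) = b * (b * t₁ - b * t₀) := by ring
      rw [this, hd1]
      linear_combination ((b : ℝ) - 1) * hd2
    have h3 : (b : ℝ) * |(b : ℝ) * (t₁ - t₀)| = |(b : ℝ) * ((b : ℝ) * (t₁ - t₀))| := by
      rw [abs_mul (b : ℝ) ((b : ℝ) * (t₁ - t₀)), abs_of_pos hb0]
    rw [h3, h2]
    rcases lt_or_gt_of_ne hu with h | h
    · have h4 : ((de b x (u + 2) : ℤ) : ℝ) ≤ -1 := by exact_mod_cast (by omega : de b x (u + 2) ≤ -1)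
      refine le_trans ?_ (neg_le_abs _)
      nlinarith
    · have h4 : (1 : ℝ) ≤ ((de b x (u + 2) : ℤ) : ℝ) := by
        exact_mod_cast (by omega : 1 ≤ de b x (u + 2))
      refine le_trans ?_ (le_abs_self _)
      nlinarith
  rw [abs_mul, abs_of_pos hb0] at hmain
  rw [div_le_div_iff₀ (by positivity) (by positivity)]
  calc 1 * (b : ℝ) ^ (u + 1) ≤ (b * (b * |t₁ - t₀|)) * (b : ℝ) ^ (u + 1) :=
        mul_le_mul_of_nonneg_right hmain (by positivity)
    _ = |t₁ - t₀| * (b : ℝ) ^ (u + 3) := by ring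

end

/-- **Local theorem for changes of digits.** -/
theorem changes_local {b : ℕ} (hb : 2 ≤ b) {A B C : ℤ} (hA : A ≠ 0) {x : ℝ} (hx : Irrational x)
    (hq : (A : ℝ) * x ^ 2 + B * x + C = 0) :
    ∃ N₀ : ℕ, ∀ N : ℕ, N₀ ≤ N → Real.log N / 10 ≤
      (((Icc 2 N).filter fun k : ℕ => (N : ℝ) / Real.log N ≤ (k : ℝ) ∧
        dig b x k ≠ dig b x (k - 1)).card : ℝ) := by
  have hb0 : (0 : ℝ) < b := by positivity
  have hb1 : (1 : ℝ) ≤ b := by exact_mod_cast (by omega : 1 ≤ b)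
  have hb2 : (2 : ℝ) ≤ b := by exact_mod_cast hb
  set y := x - x / b with hy
  have hyx : y = x * ((b : ℝ) - 1) / b := by rw [hy]; field_simp
  have hirr : Irrational y := by
    have h1 : y = ((((b : ℚ) - 1) / b : ℚ) : ℝ) * x := by
      rw [hyx]; push_cast; ring
    rw [h1]
    refine Irrational.ratCast_mul hx ?_
    have h2 : (2 : ℚ) ≤ b := by exact_mod_cast hb
    have h3 : (0 : ℚ) < ((b : ℚ) - 1) / b := div_pos (by linarith) (by linarith)
    exact h3.ne'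
  have hq' : ((A * (b : ℤ) ^ 2 : ℤ) : ℝ) * y ^ 2 + ((B * b * (b - 1) : ℤ) : ℝ) * y +
      ((C * (b - 1) ^ 2 : ℤ) : ℝ) = 0 := by
    rw [hyx]
    push_cast
    have : (A : ℝ) * (b : ℝ) ^ 2 * (x * ((b : ℝ) - 1) / b) ^ 2 +
        B * b * ((b : ℝ) - 1) * (x * ((b : ℝ) - 1) / b) + C * ((b : ℝ) - 1) ^ 2 =
        ((b : ℝ) - 1) ^ 2 * (A * x ^ 2 + B * x + C) := by
      field_simp
    rw [this, hq, mul_zero]
  obtain ⟨w₀, hw₀⟩ : ∃ w₀ : ℕ, (b : ℝ) * (b * (|y| + 1)) < 2 ^ w₀ :=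
    pow_unbounded_of_one_lt _ (by norm_num)
  obtain ⟨N₀, hN₀⟩ := local_count hb (α := A * (b : ℤ) ^ 2) (β := B * b * (b - 1))
    (γ := C * (b - 1) ^ 2) (mul_ne_zero hA (pow_ne_zero _ (by omega))) hirr hq'
    (b + |((de b x 1 : ℤ) : ℝ)|) (b * (|y| + 1)) w₀
  refine ⟨max N₀ 4, fun N hN => ?_⟩
  have hN1 : N₀ ≤ N := (le_max_left _ _).trans hN
  have hN4 : 4 ≤ N := (le_max_right _ _).trans hN
  have h := hN₀ N (de b x) ?_ (fun n _ => de_close hb x n) ?_ N hN1 le_rfl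
  · refine h.trans ?_
    have hsub : ((Icc 1 N).filter fun k : ℕ => (N : ℝ) / Real.log N ≤ (k : ℝ) ∧ de b x k ≠ 0) ⊆
        (Icc 2 N).filter fun k : ℕ => (N : ℝ) / Real.log N ≤ (k : ℝ) ∧
        dig b x k ≠ dig b x (k - 1) := by
      intro k hk
      rw [mem_filter, mem_Icc] at hk
      obtain ⟨⟨hk1, hk2⟩, hk3, hk4⟩ := hk
      rcases k with _ | _ | k
      · omega
      · exfalso
        have hNpos : (0 : ℝ) < N := by
          have : (4 : ℝ) ≤ N := by exact_mod_cast hN4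
          linarith
        have hlogpos : 0 < Real.log N := Real.log_pos (by
          have : (4 : ℝ) ≤ N := by exact_mod_cast hN4
          linarith)
        rw [div_le_iff₀ hlogpos] at hk3
        have := Real.log_le_sub_one_of_pos hNpos
        push_cast at hk3
        linarith
      · rw [mem_filter, mem_Icc]
        refine ⟨⟨by omega, hk2⟩, hk3, ?_⟩
        intro h0
        apply hk4
        have h1 : de b x (k + 1 + 1) = dig b x (k + 1 + 1) - dig b x (k + 1) := rfl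
        rw [h1]
        have h2 : k + 1 + 1 - 1 = k + 1 := by omega
        rw [h2] at h0
        omega
    exact_mod_cast card_le_card hsub
  · intro k
    rcases k with _ | _ | k
    · simp only [de]; push_cast; rw [abs_zero]; positivity
    · have h1 : (0 : ℝ) ≤ b := hb0.le
      simp only [zero_add]
      linarith
    · have h1 : de b x (k + 1 + 1) = dig b x (k + 2) - dig b x (k + 1) := rfl
      rw [h1]
      have h2 := dig_bounds hb x (k + 2)
      have h3 := dig_bounds hb x (k + 1)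
      have h4 : |dig b x (k + 2) - dig b x (k + 1)| ≤ (b : ℤ) := by rw [abs_le]; omega
      have h5 : |((dig b x (k + 2) - dig b x (k + 1) : ℤ) : ℝ)| ≤ b := by exact_mod_cast h4
      have h6 : 0 ≤ |((de b x 1 : ℤ) : ℝ)| := abs_nonneg _
      linarith
  · intro u M hu hu0 huM _ hS
    obtain ⟨v, rfl⟩ : ∃ v, u = v + 2 := ⟨u - 2, by omega⟩
    have h1 := de_far hb x v hu0
    have h2 := de_close hb x M
    rw [hS] at h2
    rw [← hy] at h1 h2
    have h3 : (b * (|y| + 1)) / (b : ℝ) ^ M < 1 / (b : ℝ) ^ (v + 3) := by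
      rw [div_lt_div_iff₀ (by positivity) (by positivity), one_mul]
      calc (b : ℝ) * (|y| + 1) * (b : ℝ) ^ (v + 3) = (b : ℝ) * (b * (|y| + 1)) * (b : ℝ) ^ (v + 2) := by
            ring
        _ < 2 ^ w₀ * (b : ℝ) ^ (v + 2) := mul_lt_mul_of_pos_right hw₀ (by positivity)
        _ ≤ (b : ℝ) ^ w₀ * (b : ℝ) ^ (v + 2) := by gcongr
        _ = (b : ℝ) ^ (v + 2 + w₀) := by rw [← pow_add]; congr 1; omega
        _ ≤ (b : ℝ) ^ M := pow_le_pow_right₀ hb1 huM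
    linarith

/-- **Global theorem for changes of digits.** -/
theorem changes_global {b : ℕ} (hb : 2 ≤ b) {A B C : ℤ} (hA : A ≠ 0) {x : ℝ} (hx : Irrational x)
    (hq : (A : ℝ) * x ^ 2 + B * x + C = 0) :
    ∃ n₀ : ℕ, ∀ n : ℕ, n₀ ≤ n → Real.log n ^ 2 / (50 * Real.log (Real.log n)) ≤
      (((Icc 2 n).filter fun k : ℕ => dig b x k ≠ dig b x (k - 1)).card : ℝ) := by
  obtain ⟨N₀, hN₀⟩ := changes_local hb hA hx hq
  obtain ⟨n₀, hn₀⟩ := global_of_local N₀
  refine ⟨n₀, fun n hn => ?_⟩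
  classical
  have h := hn₀ n hn (fun k => 2 ≤ k ∧ dig b x k ≠ dig b x (k - 1)) ?_
  · refine h.trans ?_
    have hsub : ((Icc 1 n).filter fun k => 2 ≤ k ∧ dig b x k ≠ dig b x (k - 1)) ⊆
        (Icc 2 n).filter fun k : ℕ => dig b x k ≠ dig b x (k - 1) := by
      intro k hk
      rw [mem_filter, mem_Icc] at hk ⊢
      exact ⟨⟨hk.2.1, hk.1.2⟩, hk.2.2⟩
    exact_mod_cast card_le_card hsub
  · intro N hN _
    refine (hN₀ N hN).trans ?_
    have hsub : ((Icc 2 N).filter fun k : ℕ => (N : ℝ) / Real.log N ≤ (k : ℝ) ∧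
        dig b x k ≠ dig b x (k - 1)) ⊆
        (Icc 1 N).filter fun k : ℕ => (N : ℝ) / Real.log N ≤ (k : ℝ) ∧
          (2 ≤ k ∧ dig b x k ≠ dig b x (k - 1)) := by
      intro k hk
      rw [mem_filter, mem_Icc] at hk ⊢
      exact ⟨⟨by omega, hk.1.2⟩, hk.2.1, hk.1.1, hk.2.2⟩
    exact_mod_cast card_le_card hsub

end Pool.Agent.V7H16
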