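import Pool.Agent.V7H16.Count2

/-!
# Sparse expansions of all elements of a real quadratic field of bounded height
-/

set_option autoImplicit false

open Finset Filter

namespace Pool.Agent.V7H16

/-- **Sparse expansions**, with all bounds given as powers of two. -/
theorem field_g {b : ℕ} (hb : 2 ≤ b) {A B C : ℤ} (hA : A ≠ 0) {x : ℝ} (hx : Irrational x)
    (hq : (A : ℝ) * x ^ 2 + B * x + C = 0) (δ : ℝ) (hδ0 : 0 < δ) (hδ1 : δ ≤ 1) (κ : ℕ) :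
    ∃ N₀ : ℕ, ∀ N : ℕ, N₀ ≤ N → ∀ (g : ℕ) (t c s : ℤ) (e : ℕ → ℤ),
      (g : ℝ) ≤ κ * (N : ℝ) ^ (1 - δ) → t ≠ 0 → s ≠ 0 → |(t : ℝ)| ≤ 2 ^ g → |(c : ℝ)| ≤ 2 ^ g →
      |(s : ℝ)| ≤ 2 ^ g → (∀ k ≤ N, |(e k : ℝ)| ≤ 2 ^ g) →
      |(t * x + c) / s - ∑ k ∈ range (N + 1), (e k : ℝ) / (b : ℝ) ^ k| ≤ 2 ^ g / (b : ℝ) ^ N →
      δ * Real.log N / 10 ≤
        (((Icc 1 N).filter fun k : ℕ => (N : ℝ) / Real.log N ≤ (k : ℝ) ∧ e k ≠ 0).card : ℝ) := by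
  have hb0 : (0 : ℝ) < b := by positivity
  have hb1 : (1 : ℝ) ≤ b := by exact_mod_cast (by omega : 1 ≤ b)
  obtain ⟨N₀, hN₀⟩ := local_count2 hb hA hx hq δ hδ0 hδ1 (2 * κ + (b + 3))
  refine ⟨max N₀ 1, fun N hN g t c s e hg ht hs htg hcg hsg he hclose => ?_⟩
  have hN1 : N₀ ≤ N := (le_max_left _ _).trans hN
  have hN2 : 1 ≤ N := (le_max_right _ _).trans hN
  classical
  have h2g : (1 : ℝ) ≤ 2 ^ g := one_le_pow₀ (by norm_num)
  have hsr : (s : ℝ) ≠ 0 := by exact_mod_cast hs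
  set g' := 2 * g + (b + 3) with hg'
  have hNpow : (1 : ℝ) ≤ (N : ℝ) ^ (1 - δ) :=
    Real.one_le_rpow (by exact_mod_cast hN2) (by linarith)
  have hg'le : (g' : ℝ) ≤ ((2 * κ + (b + 3) : ℕ) : ℝ) * (N : ℝ) ^ (1 - δ) := by
    rw [hg']; push_cast
    have : ((b : ℝ) + 3) * 1 ≤ (b + 3) * (N : ℝ) ^ (1 - δ) :=
      mul_le_mul_of_nonneg_left hNpow (by positivity)
    linarith
  have hb4 : (b : ℝ) + 4 ≤ 2 ^ (b + 3) := by
    have : b + 4 ≤ 2 ^ (b + 3) := (Nat.lt_two_pow_self (n := b + 3))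
    exact_mod_cast this
  have hpow : (2 : ℝ) ^ g' = 2 ^ g * 2 ^ g * 2 ^ (b + 3) := by
    rw [hg', pow_add]
    congr 1
    rw [← pow_add]
    congr 1
    omega
  have hbig : 2 ^ g * 2 ^ g * ((b : ℝ) + 4) ≤ 2 ^ g' := by
    rw [hpow]
    exact mul_le_mul_of_nonneg_left hb4 (by positivity)
  set e₀ : ℕ → ℤ := fun k => if k ≤ N then s * e k - (if k = 0 then c else 0) else 0 with he0
  have he0b : ∀ k, |(e₀ k : ℝ)| ≤ 2 * (2 ^ g * 2 ^ g) := by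
    intro k
    simp only [he0]
    have h1 : (1 : ℝ) ≤ 2 ^ g * 2 ^ g := one_le_mul_of_one_le_of_one_le h2g h2g
    split_ifs with h2 h3
    · push_cast
      refine (abs_sub _ _).trans ?_
      rw [abs_mul]
      have h4 : |(s : ℝ)| * |(e k : ℝ)| ≤ 2 ^ g * 2 ^ g :=
        mul_le_mul hsg (he k h2) (abs_nonneg _) (by positivity)
      have h5 : (2 : ℝ) ^ g * 1 ≤ 2 ^ g * 2 ^ g := mul_le_mul_of_nonneg_left h2g (by positivity)
      linarith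
    · push_cast
      rw [sub_zero, abs_mul]
      have h4 : |(s : ℝ)| * |(e k : ℝ)| ≤ 2 ^ g * 2 ^ g :=
        mul_le_mul hsg (he k h2) (abs_nonneg _) (by positivity)
      linarith
    · push_cast
      rw [abs_zero]
      positivity
  have hS0 : S b e₀ (N + 1) = s * ∑ k ∈ range (N + 1), (e k : ℝ) / (b : ℝ) ^ k - c := by
    unfold S
    have h1 : ∀ k ∈ range (N + 1), (e₀ k : ℝ) / (b : ℝ) ^ k =
        s * ((e k : ℝ) / (b : ℝ) ^ k) - (if k = 0 then (c : ℝ) else 0) := by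
      intro k hk
      rw [mem_range] at hk
      simp only [he0]
      rw [if_pos (by omega)]
      split_ifs with h2
      · subst h2; push_cast; simp
      · push_cast; ring
    rw [sum_congr rfl h1, sum_sub_distrib, ← mul_sum, sum_ite_eq' (range (N + 1)) 0,
      if_pos (by simp)]
  have hclose0 : |t * x - S b e₀ (N + 1)| ≤ 2 ^ g * 2 ^ g / (b : ℝ) ^ N := by
    rw [hS0]
    have h1 : (t : ℝ) * x - (s * ∑ k ∈ range (N + 1), (e k : ℝ) / (b : ℝ) ^ k - c) =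
        s * ((t * x + c) / s - ∑ k ∈ range (N + 1), (e k : ℝ) / (b : ℝ) ^ k) := by
      field_simp
      ring
    rw [h1, abs_mul]
    calc |(s : ℝ)| * |(t * x + c) / s - ∑ k ∈ range (N + 1), (e k : ℝ) / (b : ℝ) ^ k|
        ≤ 2 ^ g * (2 ^ g / (b : ℝ) ^ N) := mul_le_mul hsg hclose (abs_nonneg _) (by positivity)
      _ = _ := by ring
  obtain ⟨e', h1, h2, h3⟩ := reduce b (N + 1) _ e₀ rfl
  have hB : ∀ k, |(e' k : ℝ)| ≤ 2 * (2 ^ g * 2 ^ g) := by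
    intro k
    rcases h1 k with h | h
    · rw [h]; exact he0b k
    · rw [h]; push_cast; rw [abs_zero]; positivity
  have hC : ∀ n ≤ N + 1, |t * x - S b e' n| ≤ 2 ^ g' / (b : ℝ) ^ n := by
    intro n hn
    have h4 := S_sub hb hB hn
    rw [h2] at h4
    have h5 : |t * x - S b e' n| ≤ |t * x - S b e₀ (N + 1)| + |S b e₀ (N + 1) - S b e' n| := by
      have := abs_add_le (t * x - S b e₀ (N + 1)) (S b e₀ (N + 1) - S b e' n)
      rwa [sub_add_sub_cancel] at this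
    have h6 : 2 ^ g * 2 ^ g / (b : ℝ) ^ N ≤ b * (2 ^ g * 2 ^ g) / (b : ℝ) ^ n := by
      rw [div_le_div_iff₀ (by positivity) (by positivity)]
      have h7 : (b : ℝ) ^ n ≤ (b : ℝ) ^ (N + 1) := pow_le_pow_right₀ hb1 hn
      calc (2 : ℝ) ^ g * 2 ^ g * (b : ℝ) ^ n ≤ 2 ^ g * 2 ^ g * (b : ℝ) ^ (N + 1) := by gcongr
        _ = b * (2 ^ g * 2 ^ g) * (b : ℝ) ^ N := by rw [pow_succ]; ring
    have h8 : 2 ^ g * 2 ^ g * ((b : ℝ) + 4) / (b : ℝ) ^ n =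
        b * (2 ^ g * 2 ^ g) / (b : ℝ) ^ n + 2 * (2 * (2 ^ g * 2 ^ g)) / (b : ℝ) ^ n := by
      rw [← add_div]; congr 1; ring
    have h9 : 2 ^ g * 2 ^ g * ((b : ℝ) + 4) / (b : ℝ) ^ n ≤ 2 ^ g' / (b : ℝ) ^ n := by gcongr
    linarith
  have htg' : |(t : ℝ)| ≤ 2 ^ g' := by
    refine htg.trans (pow_le_pow_right₀ (by norm_num) (by omega))
  have hBg' : ∀ k, |(e' k : ℝ)| ≤ 2 ^ g' := by
    intro k
    refine (hB k).trans (le_trans ?_ hbig)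
    have h5 : (0 : ℝ) ≤ 2 ^ g * 2 ^ g := by positivity
    nlinarith
  have h := hN₀ N hN1 (N + 1) g' t e' (by omega) hg'le ht htg' hBg' hC
    (fun u M hu huM hM => h3 u M huM hM hu)
  refine h.trans ?_
  have hsub : ((Icc 1 N).filter fun k : ℕ => (N : ℝ) / Real.log N ≤ (k : ℝ) ∧ e' k ≠ 0) ⊆
      (Icc 1 N).filter fun k : ℕ => (N : ℝ) / Real.log N ≤ (k : ℝ) ∧ e k ≠ 0 := by
    intro k hk
    rw [mem_filter, mem_Icc] at hk ⊢
    refine ⟨hk.1, hk.2.1, fun h0 => hk.2.2 ?_⟩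
    rcases h1 k with h4 | h4
    · rw [h4]
      simp only [he0]
      rw [if_pos hk.1.2, if_neg (by omega), h0]
      simp
    · exact h4
  exact_mod_cast card_le_card hsub

lemma exp_le_two_pow (y : ℝ) (hy : 0 ≤ y) : Real.exp y ≤ 2 ^ (⌈2 * y⌉₊) := by
  have h1 : y ≤ ⌈2 * y⌉₊ * Real.log 2 := by
    have h2 := Nat.le_ceil (2 * y)
    have h3 := Real.log_two_gt_d9
    have h4 : (0 : ℝ) ≤ ⌈2 * y⌉₊ := Nat.cast_nonneg _
    nlinarith
  calc Real.exp y ≤ Real.exp (⌈2 * y⌉₊ * Real.log 2) := Real.exp_le_exp.2 h1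
    _ = 2 ^ (⌈2 * y⌉₊) := by
        rw [Real.exp_nat_mul, Real.exp_log (by norm_num)]

/-- **Sparse expansions of the elements of a real quadratic field.** -/
theorem field_local {b : ℕ} (hb : 2 ≤ b) {A B C : ℤ} (hA : A ≠ 0) {x : ℝ} (hx : Irrational x)
    (hq : (A : ℝ) * x ^ 2 + B * x + C = 0) (δ : ℝ) (hδ0 : 0 < δ) (hδ1 : δ ≤ 1) :
    ∃ N₀ : ℕ, ∀ N : ℕ, N₀ ≤ N → ∀ (t c s : ℤ) (e : ℕ → ℤ), t ≠ 0 → s ≠ 0 →
      |(t : ℝ)| ≤ Real.exp ((N : ℝ) ^ (1 - δ)) → |(c : ℝ)| ≤ Real.exp ((N : ℝ) ^ (1 - δ)) →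
      |(s : ℝ)| ≤ Real.exp ((N : ℝ) ^ (1 - δ)) →
      (∀ k ≤ N, |(e k : ℝ)| ≤ Real.exp ((N : ℝ) ^ (1 - δ))) →
      |(t * x + c) / s - ∑ k ∈ range (N + 1), (e k : ℝ) / (b : ℝ) ^ k| ≤
        Real.exp ((N : ℝ) ^ (1 - δ)) / (b : ℝ) ^ N →
      δ * Real.log N / 10 ≤
        (((Icc 1 N).filter fun k : ℕ => (N : ℝ) / Real.log N ≤ (k : ℝ) ∧ e k ≠ 0).card : ℝ) := by
  have hb0 : (0 : ℝ) < b := by positivity
  obtain ⟨N₀, hN₀⟩ := field_g hb hA hx hq δ hδ0 hδ1 3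
  refine ⟨max N₀ 1, fun N hN t c s e ht hs htE hcE hsE heE hclose => ?_⟩
  have hN1 : N₀ ≤ N := (le_max_left _ _).trans hN
  have hN2 : 1 ≤ N := (le_max_right _ _).trans hN
  have hNpow : (1 : ℝ) ≤ (N : ℝ) ^ (1 - δ) :=
    Real.one_le_rpow (by exact_mod_cast hN2) (by linarith)
  have hE := exp_le_two_pow ((N : ℝ) ^ (1 - δ)) (by linarith)
  refine hN₀ N hN1 ⌈2 * (N : ℝ) ^ (1 - δ)⌉₊ t c s e ?_ ht hs (htE.trans hE) (hcE.trans hE)
    (hsE.trans hE) (fun k hk => (heE k hk).trans hE) (hclose.trans (by gcongr))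
  have := Nat.ceil_lt_add_one (show 0 ≤ 2 * (N : ℝ) ^ (1 - δ) by linarith)
  push_cast
  linarith

/-- the differences of consecutive digits -/
noncomputable def dd (b : ℕ) (y : ℝ) : ℕ → ℤ
  | 0 => ⌊y * (b : ℝ) ^ 1⌋ - ⌊y * (b : ℝ) ^ 0⌋
  | (k + 1) => dig b y (k + 2) - dig b y (k + 1)

lemma sum_dd {b : ℕ} (hb : 2 ≤ b) (y : ℝ) (n : ℕ) :
    ∑ k ∈ range (n + 1), (dd b y k : ℝ) / (b : ℝ) ^ k =
      ((⌊y * (b : ℝ) ^ (n + 1)⌋ : ℝ) - ⌊y * (b : ℝ) ^ n⌋) / (b : ℝ) ^ n := by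
  have hb0 : (0 : ℝ) < b := by positivity
  induction n with
  | zero => simp [dd]
  | succ n ih =>
    rw [sum_range_succ, ih]
    have h2 : dd b y (n + 1) = dig b y (n + 2) - dig b y (n + 1) := rfl
    rw [h2, dig_eq hb y n, dig_eq hb y (n + 1)]
    push_cast
    field_simp
    ring

/-- **Changes of digits of the elements of a real quadratic field.** -/
theorem field_changes {b : ℕ} (hb : 2 ≤ b) {A B C : ℤ} (hA : A ≠ 0) {x : ℝ} (hx : Irrational x)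
    (hq : (A : ℝ) * x ^ 2 + B * x + C = 0) (δ : ℝ) (hδ0 : 0 < δ) (hδ1 : δ ≤ 1) :
    ∃ N₀ : ℕ, ∀ N : ℕ, N₀ ≤ N → ∀ t c s : ℤ, t ≠ 0 → s ≠ 0 →
      |(t : ℝ)| ≤ Real.exp ((N : ℝ) ^ (1 - δ)) → |(c : ℝ)| ≤ Real.exp ((N : ℝ) ^ (1 - δ)) →
      |(s : ℝ)| ≤ Real.exp ((N : ℝ) ^ (1 - δ)) →
      δ * Real.log N / 10 ≤
        (((Icc 1 N).filter fun k : ℕ => (N : ℝ) / Real.log N ≤ (k : ℝ) ∧
          dig b ((t * x + c) / s) (k + 1) ≠ dig b ((t * x + c) / s) k).card : ℝ) := by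
  have hb0 : (0 : ℝ) < b := by positivity
  have hb1 : (1 : ℝ) ≤ b := by exact_mod_cast (by omega : 1 ≤ b)
  obtain ⟨κ, hκ⟩ : ∃ κ : ℕ, ((b : ℝ) + 1) * (|x| + 1) + b + 2 < 2 ^ κ :=
    pow_unbounded_of_one_lt _ (by norm_num)
  obtain ⟨N₀, hN₀⟩ := field_g hb hA hx hq δ hδ0 hδ1 (κ + 3)
  refine ⟨max N₀ 1, fun N hN t c s ht hs htE hcE hsE => ?_⟩
  have hN1 : N₀ ≤ N := (le_max_left _ _).trans hN
  have hN2 : 1 ≤ N := (le_max_right _ _).trans hN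
  have hNpow : (1 : ℝ) ≤ (N : ℝ) ^ (1 - δ) :=
    Real.one_le_rpow (by exact_mod_cast hN2) (by linarith)
  set E := Real.exp ((N : ℝ) ^ (1 - δ)) with hEdef
  have hE1 : 1 ≤ E := Real.one_le_exp (by linarith)
  have hE := exp_le_two_pow ((N : ℝ) ^ (1 - δ)) (by linarith)
  rw [← hEdef] at hE
  set m := ⌈2 * (N : ℝ) ^ (1 - δ)⌉₊ with hm
  have hκ1 : (1 : ℝ) ≤ 2 ^ κ := one_le_pow₀ (by norm_num)
  have hpow : (2 : ℝ) ^ (m + κ) = 2 ^ m * 2 ^ κ := pow_add _ _ _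
  have hEg : E * 2 ^ κ ≤ 2 ^ (m + κ) := by
    rw [hpow]; exact mul_le_mul_of_nonneg_right hE (by positivity)
  have hEg1 : E ≤ 2 ^ (m + κ) := le_trans (le_mul_of_one_le_right (by linarith) hκ1) hEg
  have hbκ : (b : ℝ) - 1 ≤ 2 ^ κ := by
    have : 0 ≤ ((b : ℝ) + 1) * (|x| + 1) := by positivity
    linarith
  have hsr : (s : ℝ) ≠ 0 := by exact_mod_cast hs
  have hs1 : (1 : ℝ) ≤ |(s : ℝ)| := by
    have := Int.one_le_abs hs
    exact_mod_cast this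
  set y : ℝ := (t * x + c) / s with hy
  have hyabs : |y| ≤ E * (|x| + 1) := by
    rw [hy, abs_div, div_le_iff₀ (by linarith)]
    have h1 : |(t : ℝ) * x + c| ≤ E * (|x| + 1) := by
      refine (abs_add_le _ _).trans ?_
      rw [abs_mul]
      have : |(t : ℝ)| * |x| ≤ E * |x| := mul_le_mul_of_nonneg_right htE (abs_nonneg _)
      linarith
    refine h1.trans (le_mul_of_one_le_right (by positivity) hs1)
  have hbound : ∀ k ≤ N, |(dd b y k : ℝ)| ≤ 2 ^ (m + κ) := by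
    intro k _
    have hk0 : |(dd b y k : ℝ)| ≤ E * 2 ^ κ := by
      have hEκ : E * (((b : ℝ) + 1) * (|x| + 1) + b + 2) ≤ E * 2 ^ κ :=
        mul_le_mul_of_nonneg_left hκ.le (by linarith)
      have h9 : E * (((b : ℝ) + 1) * (|x| + 1) + b + 2) =
          ((b : ℝ) + 1) * (E * (|x| + 1)) + E * b + 2 * E := by ring
      rcases k with _ | k
      · have h1 : ((dd b y 0 : ℤ) : ℝ) = (⌊y * (b : ℝ) ^ 1⌋ : ℝ) - ⌊y * (b : ℝ) ^ 0⌋ := by
          simp only [dd]; push_cast; ring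
        rw [h1]
        have h2 : (⌊y * (b : ℝ) ^ 1⌋ : ℝ) - ⌊y * (b : ℝ) ^ 0⌋ =
            (y * (b : ℝ) ^ 1 - y * (b : ℝ) ^ 0) -
            (Int.fract (y * (b : ℝ) ^ 1) - Int.fract (y * (b : ℝ) ^ 0)) := by
          unfold Int.fract; ring
        rw [h2]
        have h3 := Int.fract_nonneg (y * (b : ℝ) ^ 1)
        have h4 := Int.fract_lt_one (y * (b : ℝ) ^ 1)
        have h5 := Int.fract_nonneg (y * (b : ℝ) ^ 0)
        have h6 := Int.fract_lt_one (y * (b : ℝ) ^ 0)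
        have h7 : |Int.fract (y * (b : ℝ) ^ 1) - Int.fract (y * (b : ℝ) ^ 0)| ≤ 1 := by
          rw [abs_le]; constructor <;> linarith
        have h8 : |y * (b : ℝ) ^ 1 - y * (b : ℝ) ^ 0| ≤ ((b : ℝ) + 1) * (E * (|x| + 1)) := by
          rw [pow_one, pow_zero, mul_one]
          refine (abs_sub _ _).trans ?_
          rw [abs_mul, abs_of_pos hb0]
          nlinarith [abs_nonneg y]
        refine (abs_sub _ _).trans ?_
        have h10 : 0 ≤ E * b := by positivity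
        linarith
      · have h1 : dd b y (k + 1) = dig b y (k + 2) - dig b y (k + 1) := rfl
        rw [h1]
        have h2 := dig_bounds hb y (k + 2)
        have h3 := dig_bounds hb y (k + 1)
        have h4 : |dig b y (k + 2) - dig b y (k + 1)| ≤ (b : ℤ) := by rw [abs_le]; omega
        have h5 : |((dig b y (k + 2) - dig b y (k + 1) : ℤ) : ℝ)| ≤ b := by exact_mod_cast h4
        have h10 : (b : ℝ) ≤ E * b := le_mul_of_one_le_left hb0.le hE1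
        have h11 : 0 ≤ ((b : ℝ) + 1) * (E * (|x| + 1)) := by positivity
        linarith
    exact hk0.trans hEg
  have ht' : |(((b - 1 : ℤ) * t : ℤ) : ℝ)| ≤ 2 ^ (m + κ) := by
    push_cast
    rw [abs_mul, abs_of_nonneg (show (0 : ℝ) ≤ (b : ℝ) - 1 by linarith)]
    refine le_trans ?_ hEg
    rw [mul_comm]
    exact mul_le_mul htE hbκ (by linarith) (by linarith)
  have hc' : |(((b - 1 : ℤ) * c : ℤ) : ℝ)| ≤ 2 ^ (m + κ) := by
    push_cast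
    rw [abs_mul, abs_of_nonneg (show (0 : ℝ) ≤ (b : ℝ) - 1 by linarith)]
    refine le_trans ?_ hEg
    rw [mul_comm]
    exact mul_le_mul hcE hbκ (by linarith) (by linarith)
  have hclose : |((((b - 1 : ℤ) * t : ℤ) : ℝ) * x + (((b - 1 : ℤ) * c : ℤ) : ℝ)) / s -
      ∑ k ∈ range (N + 1), (dd b y k : ℝ) / (b : ℝ) ^ k| ≤ 2 ^ (m + κ) / (b : ℝ) ^ N := by
    rw [sum_dd hb]
    have h1 : ((((b - 1 : ℤ) * t : ℤ) : ℝ) * x + (((b - 1 : ℤ) * c : ℤ) : ℝ)) / s -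
        ((⌊y * (b : ℝ) ^ (N + 1)⌋ : ℝ) - ⌊y * (b : ℝ) ^ N⌋) / (b : ℝ) ^ N =
        (Int.fract (y * (b : ℝ) ^ (N + 1)) - Int.fract (y * (b : ℝ) ^ N)) / (b : ℝ) ^ N := by
      have h2 : ((((b - 1 : ℤ) * t : ℤ) : ℝ) * x + (((b - 1 : ℤ) * c : ℤ) : ℝ)) / s =
          ((b : ℝ) - 1) * y := by
        rw [hy]; push_cast; ring
      rw [h2]
      unfold Int.fract
      rw [pow_succ]
      field_simp
      ring
    rw [h1, abs_div, abs_of_pos (show (0 : ℝ) < (b : ℝ) ^ N by positivity)]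
    have h3 := Int.fract_nonneg (y * (b : ℝ) ^ (N + 1))
    have h4 := Int.fract_lt_one (y * (b : ℝ) ^ (N + 1))
    have h5 := Int.fract_nonneg (y * (b : ℝ) ^ N)
    have h6 := Int.fract_lt_one (y * (b : ℝ) ^ N)
    have h7 : |Int.fract (y * (b : ℝ) ^ (N + 1)) - Int.fract (y * (b : ℝ) ^ N)| ≤ 1 := by
      rw [abs_le]; constructor <;> linarith
    have h8 : (1 : ℝ) ≤ 2 ^ (m + κ) := one_le_pow₀ (by norm_num)
    gcongr
    exact h7.trans h8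
  have hbt : (b - 1 : ℤ) * t ≠ 0 := mul_ne_zero (by omega) ht
  have h := hN₀ N hN1 (m + κ) ((b - 1 : ℤ) * t) ((b - 1 : ℤ) * c) s (dd b y) ?_ hbt hs ht' hc'
    (hsE.trans hEg1) hbound hclose
  · refine h.trans ?_
    have hsub : ((Icc 1 N).filter fun k : ℕ => (N : ℝ) / Real.log N ≤ (k : ℝ) ∧ dd b y k ≠ 0) ⊆
        (Icc 1 N).filter fun k : ℕ => (N : ℝ) / Real.log N ≤ (k : ℝ) ∧
          dig b y (k + 1) ≠ dig b y k := by
      intro k hk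
      rw [mem_filter, mem_Icc] at hk ⊢
      refine ⟨hk.1, hk.2.1, fun h0 => hk.2.2 ?_⟩
      obtain ⟨j, rfl⟩ : ∃ j, k = j + 1 := ⟨k - 1, by omega⟩
      have h1 : dd b y (j + 1) = dig b y (j + 2) - dig b y (j + 1) := rfl
      rw [h1]
      have h2 : dig b y (j + 1 + 1) = dig b y (j + 2) := rfl
      rw [h2] at h0
      omega
    exact_mod_cast card_le_card hsub
  · have h1 := Nat.ceil_lt_add_one (show 0 ≤ 2 * (N : ℝ) ^ (1 - δ) by linarith)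
    have h2 : (κ : ℝ) * 1 ≤ κ * (N : ℝ) ^ (1 - δ) :=
      mul_le_mul_of_nonneg_left hNpow (Nat.cast_nonneg _)
    push_cast
    linarith

end Pool.Agent.V7H16
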