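import Pool.Agent.V7H16.Count

/-!
# From the local counting theorem to a global one
-/

set_option autoImplicit false

open Finset Filter

namespace Pool.Agent.V7H16

/-- If every interval `[N / log N, N]` with `N₀ ≤ N ≤ n` has at least `(log N) / 10` members, then
`[1, n]` has at least `(log n)² / (50 log log n)` members. -/
theorem global_of_local (N₀ : ℕ) : ∃ n₀ : ℕ, ∀ n : ℕ, n₀ ≤ n → ∀ (P : ℕ → Prop) [DecidablePred P],
    (∀ N, N₀ ≤ N → N ≤ n → Real.log N / 10 ≤
      (((Icc 1 N).filter fun k : ℕ => (N : ℝ) / Real.log N ≤ (k : ℝ) ∧ P k).card : ℝ)) →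
    Real.log n ^ 2 / (50 * Real.log (Real.log n)) ≤ (((Icc 1 n).filter P).card : ℝ) := by
  have hlog := log_tendsto
  have hloglog : Tendsto (fun N : ℕ => Real.log (Real.log (N : ℝ))) atTop atTop :=
    Real.tendsto_log_atTop.comp hlog
  have hev : ∀ᶠ x : ℝ in atTop, 20 * Real.log x ≤ x := by
    filter_upwards [eventually_ge_atTop (max 1 (40 * Real.log 40))] with x hx
    have h1 : 1 ≤ x := (le_max_left _ _).trans hx
    have h2 := (le_max_right _ _).trans hx
    have h3 := log_le_div x 40 (by linarith) (by norm_num)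
    linarith
  obtain ⟨n₀, hn₀⟩ := eventually_atTop.1 ((hlog.eventually hev).and
    ((hloglog.eventually_ge_atTop 7).and ((hlog.eventually_ge_atTop 20).and
      (eventually_ge_atTop (N₀ ^ 2 + 100)))))
  refine ⟨n₀, fun n hn P _ hloc => ?_⟩
  obtain ⟨h20, hll7, hl20, hnN⟩ := hn₀ n hn
  set ℓ := Real.log n with hℓ
  have hnr : ((N₀ : ℝ) ^ 2 + 100) ≤ n := by exact_mod_cast hnN
  have hn0 : (0 : ℝ) < n := by nlinarith [sq_nonneg (N₀ : ℝ)]
  have hsqrt : (N₀ : ℝ) ≤ √n := Real.le_sqrt_of_sq_le (by linarith)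
  have hsqrt1 : (1 : ℝ) ≤ √n := Real.le_sqrt_of_sq_le (by nlinarith [sq_nonneg (N₀ : ℝ)])
  have key : ∀ i : ℕ, ∀ N : ℕ, N ≤ n → √n * (2 * ℓ) ^ i ≤ N →
      (i : ℝ) * (ℓ / 20) ≤ (((Icc 1 N).filter P).card : ℝ) := by
    intro i
    induction i with
    | zero => intro N _ _; simp
    | succ i ih =>
      intro N hNn hN
      have hr1 : (1 : ℝ) ≤ 2 * ℓ := by linarith
      have hpow1 : (1 : ℝ) ≤ (2 * ℓ) ^ i := one_le_pow₀ hr1
      have hN1 : √n * (2 * ℓ) ≤ N := by
        refine le_trans ?_ hN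
        rw [pow_succ]
        have : √n * (2 * ℓ) * 1 ≤ √n * (2 * ℓ) * (2 * ℓ) ^ i :=
          mul_le_mul_of_nonneg_left hpow1 (by positivity)
        linarith
      have hN2 : √n ≤ N := by
        have : √n * 1 ≤ √n * (2 * ℓ) := mul_le_mul_of_nonneg_left hr1 (by positivity)
        linarith
      have hN3 : 2 * ℓ ≤ N := by
        have : 1 * (2 * ℓ) ≤ √n * (2 * ℓ) := mul_le_mul_of_nonneg_right hsqrt1 (by positivity)
        linarith
      have hNpos : (0 : ℝ) < N := by linarith
      have hN0 : N₀ ≤ N := by exact_mod_cast hsqrt.trans hN2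
      have hNle : (N : ℝ) ≤ n := by exact_mod_cast hNn
      have hlogle : Real.log N ≤ ℓ := Real.log_le_log hNpos hNle
      have hlogge : ℓ / 2 ≤ Real.log N := by
        have h1 := Real.log_le_log (by linarith) hN2
        rw [Real.log_sqrt hn0.le] at h1
        exact h1
      have hloc' := hloc N hN0 hNn
      set N' := ⌈(N : ℝ) / Real.log N⌉₊ - 1 with hN'
      have hc1 : 1 ≤ ⌈(N : ℝ) / Real.log N⌉₊ := by
        have : 0 < ⌈(N : ℝ) / Real.log N⌉₊ := Nat.ceil_pos.2 (by
          have : 0 < Real.log N := by linarith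
          positivity)
        omega
      have hN'r : (N' : ℝ) = (⌈(N : ℝ) / Real.log N⌉₊ : ℝ) - 1 := by
        rw [hN', Nat.cast_sub hc1]; simp
      have hlt : (N' : ℝ) < N / Real.log N := by
        have := Nat.ceil_lt_add_one (show (0 : ℝ) ≤ N / Real.log N by
          have : 0 < Real.log N := by linarith
          positivity)
        linarith
      have hge : (N : ℝ) / (2 * ℓ) ≤ N' := by
        have h1 : (N : ℝ) / Real.log N ≤ ⌈(N : ℝ) / Real.log N⌉₊ := Nat.le_ceil _
        have h2 : (N : ℝ) / ℓ ≤ N / Real.log N :=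
          div_le_div_of_nonneg_left hNpos.le (by linarith) hlogle
        have h3 : (1 : ℝ) ≤ N / (2 * ℓ) := by rw [le_div_iff₀ (by linarith)]; linarith
        have h4 : (N : ℝ) / ℓ = N / (2 * ℓ) + N / (2 * ℓ) := by field_simp; norm_num
        linarith
      have hN'N : N' ≤ N := by
        have h1 : (N : ℝ) / Real.log N ≤ N := div_le_self hNpos.le (by linarith)
        have : (N' : ℝ) ≤ N := by linarith
        exact_mod_cast this
      have hih := ih N' (hN'N.trans hNn) (by
        refine le_trans ?_ hge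
        rw [le_div_iff₀ (by linarith)]
        calc √n * (2 * ℓ) ^ i * (2 * ℓ) = √n * (2 * ℓ) ^ (i + 1) := by rw [pow_succ]; ring
          _ ≤ N := hN)
      have hdisj : Disjoint ((Icc 1 N').filter P)
          ((Icc 1 N).filter fun k : ℕ => (N : ℝ) / Real.log N ≤ (k : ℝ) ∧ P k) := by
        rw [Finset.disjoint_left]
        intro k hk1 hk2
        rw [mem_filter, mem_Icc] at hk1 hk2
        have h1 : (k : ℝ) ≤ N' := by exact_mod_cast hk1.1.2
        linarith [hk2.2.1]
      have hsub : ((Icc 1 N').filter P) ∪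
          ((Icc 1 N).filter fun k : ℕ => (N : ℝ) / Real.log N ≤ (k : ℝ) ∧ P k) ⊆
          (Icc 1 N).filter P := by
        intro k hk
        rw [mem_union, mem_filter, mem_filter, mem_Icc, mem_Icc] at hk
        rw [mem_filter, mem_Icc]
        rcases hk with hk | hk
        · exact ⟨⟨hk.1.1, hk.1.2.trans hN'N⟩, hk.2⟩
        · exact ⟨hk.1, hk.2.2⟩
      have hcard := card_le_card hsub
      rw [card_union_of_disjoint hdisj] at hcard
      have hcard' : (((Icc 1 N').filter P).card : ℝ) +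
          (((Icc 1 N).filter fun k : ℕ => (N : ℝ) / Real.log N ≤ (k : ℝ) ∧ P k).card : ℝ) ≤
          (((Icc 1 N).filter P).card : ℝ) := by exact_mod_cast hcard
      push_cast
      linarith
  -- choose the number of steps
  have hr0 : 0 < Real.log (2 * ℓ) := Real.log_pos (by linarith)
  set i := ⌊ℓ / 2 / Real.log (2 * ℓ)⌋₊ with hi
  have hi1 : (i : ℝ) ≤ ℓ / 2 / Real.log (2 * ℓ) := Nat.floor_le (by positivity)
  have hi2 : ℓ / 2 / Real.log (2 * ℓ) < i + 1 := Nat.lt_floor_add_one _
  have hfin := key i n le_rfl (by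
    have h1 : (2 * ℓ) ^ i ≤ √n := by
      rw [← Real.log_le_log_iff (by positivity) (by positivity), Real.log_pow,
        Real.log_sqrt hn0.le]
      rw [le_div_iff₀ hr0] at hi1
      exact hi1
    calc √n * (2 * ℓ) ^ i ≤ √n * √n := mul_le_mul_of_nonneg_left h1 (by positivity)
      _ = n := Real.mul_self_sqrt hn0.le)
  refine le_trans ?_ hfin
  have hll : 7 ≤ Real.log ℓ := hll7
  have hlog2 : Real.log (2 * ℓ) ≤ 11 / 10 * Real.log ℓ := by
    rw [Real.log_mul (by norm_num) (by linarith)]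
    have := Real.log_two_lt_d9
    linarith
  have h1 : ℓ / 2 / (11 / 10 * Real.log ℓ) ≤ ℓ / 2 / Real.log (2 * ℓ) :=
    div_le_div_of_nonneg_left (by linarith) hr0 hlog2
  have h2 : ℓ / 2 / (11 / 10 * Real.log ℓ) = 5 / 11 * (ℓ / Real.log ℓ) := by
    field_simp
    norm_num
  have h3 : 20 ≤ ℓ / Real.log ℓ := by rw [le_div_iff₀ (by linarith)]; exact h20
  have h4 : 2 / 5 * (ℓ / Real.log ℓ) ≤ i := by linarith
  calc ℓ ^ 2 / (50 * Real.log ℓ) = 2 / 5 * (ℓ / Real.log ℓ) * (ℓ / 20) := by
        field_simp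
        norm_num
    _ ≤ i * (ℓ / 20) := mul_le_mul_of_nonneg_right h4 (by linarith)

end Pool.Agent.V7H16
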