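import Mathlib

/-!
# Representations of a quadratic irrational by powers of the base: the two basic estimates
-/

set_option autoImplicit false

open Finset

namespace Pool.Agent.V7H16

/-- The sum of the terms `e k / b ^ k` over the places `k < n`. -/
noncomputable def S (b : ℕ) (e : ℕ → ℤ) (n : ℕ) : ℝ := ∑ k ∈ range n, (e k : ℝ) / (b : ℝ) ^ k

section
variable {b : ℕ} {e : ℕ → ℤ}

lemma int_S (hb : 2 ≤ b) (n N : ℕ) (h : n ≤ N + 1) : ∃ z : ℤ, (b : ℝ) ^ N * S b e n = z := by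
  refine ⟨∑ k ∈ range n, e k * (b : ℤ) ^ (N - k), ?_⟩
  unfold S
  rw [mul_sum]
  push_cast
  refine sum_congr rfl fun k hk => ?_
  rw [mem_range] at hk
  have hb0 : (b : ℝ) ≠ 0 := by positivity
  have h1 : (b : ℝ) ^ N = (b : ℝ) ^ (N - k) * (b : ℝ) ^ k := by
    rw [← pow_add]; congr 1; omega
  rw [h1]
  field_simp

lemma geoIco (hb : 2 ≤ b) (u N : ℕ) : ∑ k ∈ Ico u N, 1 / (b : ℝ) ^ k ≤ 2 / (b : ℝ) ^ u := by
  have hb2 : (2 : ℝ) ≤ b := by exact_mod_cast hb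
  have key : ∀ N, u ≤ N → ∑ k ∈ Ico u N, 1 / (b : ℝ) ^ k ≤ 2 / (b : ℝ) ^ u - 2 / (b : ℝ) ^ N := by
    intro N hN
    induction N, hN using Nat.le_induction with
    | base => simp
    | succ n hn ih =>
      rw [sum_Ico_succ_top hn]
      have h1 : 2 / (b : ℝ) ^ (n + 1) ≤ 1 / (b : ℝ) ^ n := by
        rw [pow_succ, div_le_div_iff₀ (by positivity) (by positivity)]
        have : 0 < (b : ℝ) ^ n := by positivity
        nlinarith
      have h2 : 2 / (b : ℝ) ^ n = 1 / (b : ℝ) ^ n + 1 / (b : ℝ) ^ n := by ring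
      linarith
  rcases le_or_gt u N with h | h
  · have := key N h
    have h1 : 0 < 2 / (b : ℝ) ^ N := by positivity
    linarith
  · rw [Ico_eq_empty_of_le h.le]
    simp only [sum_empty]
    positivity

lemma S_sub (hb : 2 ≤ b) {B : ℝ} (hB : ∀ k, |(e k : ℝ)| ≤ B) {u N : ℕ} (h : u ≤ N) :
    |S b e N - S b e u| ≤ 2 * B / (b : ℝ) ^ u := by
  have hB0 : 0 ≤ B := (abs_nonneg _).trans (hB 0)
  unfold S
  rw [← sum_Ico_eq_sub _ h]
  refine (abs_sum_le_sum_abs _ _).trans ?_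
  calc ∑ k ∈ Ico u N, |(e k : ℝ) / (b : ℝ) ^ k| ≤ ∑ k ∈ Ico u N, B * (1 / (b : ℝ) ^ k) := by
        refine sum_le_sum fun k _ => ?_
        rw [abs_div, abs_of_pos (show (0 : ℝ) < (b : ℝ) ^ k by positivity), mul_one_div]
        gcongr
        exact hB k
    _ = B * ∑ k ∈ Ico u N, 1 / (b : ℝ) ^ k := by rw [mul_sum]
    _ ≤ B * (2 / (b : ℝ) ^ u) := mul_le_mul_of_nonneg_left (geoIco hb u N) hB0
    _ = 2 * B / (b : ℝ) ^ u := by ring

lemma S_const {u N : ℕ} (h : u ≤ N) (h0 : ∀ k, u ≤ k → k < N → e k = 0) :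
    S b e N = S b e u := by
  have : S b e N - S b e u = 0 := by
    unfold S
    rw [← sum_Ico_eq_sub _ h]
    refine sum_eq_zero fun k hk => ?_
    rw [mem_Ico] at hk
    rw [h0 k hk.1 hk.2]
    simp
  linarith

end

section
variable {α β γ : ℤ} {ξ : ℝ}

lemma theta_irr (hα : α ≠ 0) (hξ : Irrational ξ) : Irrational (2 * α * ξ + β) := by
  have h1 : Irrational ((2 * α : ℤ) * ξ) := hξ.intCast_mul (by omega)
  have h2 := h1.add_intCast β
  push_cast at h2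
  exact h2

/-- Liouville's inequality for the square root of the discriminant. -/
lemma liouville (hα : α ≠ 0) (hξ : Irrational ξ) (hq : (α : ℝ) * ξ ^ 2 + β * ξ + γ = 0)
    (V W : ℤ) (hV : V ≠ 0) :
    1 ≤ (2 * |2 * α * ξ + β| * |(V : ℝ)| + 1) * |(2 * α * ξ + β) * V + W| := by
  set θ : ℝ := 2 * α * ξ + β with hθ
  have hsq : θ ^ 2 = ((β ^ 2 - 4 * α * γ : ℤ) : ℝ) := by
    push_cast
    rw [hθ]
    linear_combination (4 * (α : ℝ)) * hq
  have hirr : Irrational θ := theta_irr hα hξ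
  have hprod : 1 ≤ |θ * V + W| * |θ * V - W| := by
    rw [← abs_mul]
    have h1 : (θ * V + W) * (θ * V - W) = (((β ^ 2 - 4 * α * γ) * V ^ 2 - W ^ 2 : ℤ) : ℝ) := by
      push_cast
      push_cast at hsq
      rw [← hsq]; ring
    rw [h1]
    have h2 : (β ^ 2 - 4 * α * γ) * V ^ 2 - W ^ 2 ≠ 0 := by
      intro h0
      rw [h0] at h1
      simp only [Int.cast_zero, mul_eq_zero] at h1
      have hVr : (V : ℝ) ≠ 0 := by exact_mod_cast hV
      rcases h1 with h1 | h1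
      · apply hirr
        refine ⟨-(W : ℚ) / V, ?_⟩
        push_cast
        field_simp
        linarith
      · apply hirr
        refine ⟨(W : ℚ) / V, ?_⟩
        push_cast
        field_simp
        linarith
    have h3 := Int.one_le_abs h2
    exact_mod_cast h3
  rcases le_or_gt 1 |θ * V + W| with h | h
  · have h1 : 1 ≤ 2 * |θ| * |(V : ℝ)| + 1 := by
      have : 0 ≤ 2 * |θ| * |(V : ℝ)| := by positivity
      linarith
    exact one_le_mul_of_one_le_of_one_le h1 h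
  · have h1 : |θ * V - W| ≤ 2 * |θ| * |(V : ℝ)| + 1 := by
      have h2 : θ * V - W = 2 * (θ * V) - (θ * V + W) := by ring
      rw [h2]
      refine (abs_sub _ _).trans ?_
      rw [abs_mul, abs_mul, abs_two]
      linarith
    calc 1 ≤ |θ * V + W| * |θ * V - W| := hprod
      _ ≤ |θ * V + W| * (2 * |θ| * |(V : ℝ)| + 1) :=
          mul_le_mul_of_nonneg_left h1 (abs_nonneg _)
      _ = _ := mul_comm _ _

variable {b : ℕ} {e : ℕ → ℤ} {B C₀ : ℝ} {n₁ : ℕ}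

/-- There is no gap `[n, 2 n + Γ)` if `Γ` is large. -/
lemma no_big_gap (hb : 2 ≤ b) (hα : α ≠ 0) (hξ : Irrational ξ)
    (hq : (α : ℝ) * ξ ^ 2 + β * ξ + γ = 0)
    (hC : ∀ n ≤ n₁, |ξ - S b e n| ≤ C₀ / (b : ℝ) ^ n) (n Γ : ℕ) (hn : 2 * n + Γ ≤ n₁)
    (hA : ∀ k, n ≤ k → k < 2 * n + Γ → e k = 0) :
    1 ≤ (2 * |2 * α * ξ + β| + 1) * (2 * |(α : ℝ)| * C₀) / (b : ℝ) ^ Γ := by
  have hb0 : (0 : ℝ) < b := by positivity
  have hb1 : (1 : ℝ) ≤ b := by exact_mod_cast (by omega : 1 ≤ b)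
  obtain ⟨z, hz⟩ := int_S (e := e) hb n n (by omega)
  have h1 := hC _ hn
  rw [S_const (by omega) hA] at h1
  have h2 := liouville hα hξ hq ((b : ℤ) ^ n) (-(2 * α * z + β * (b : ℤ) ^ n)) (by positivity)
  have h3 : (2 * α * ξ + β) * (((b : ℤ) ^ n : ℤ) : ℝ) + ((-(2 * α * z + β * (b : ℤ) ^ n) : ℤ) : ℝ)
      = 2 * α * ((b : ℝ) ^ n * (ξ - S b e n)) := by
    push_cast
    linear_combination (2 * (α : ℝ)) * hz
  rw [h3] at h2
  have h4 : |2 * (α : ℝ) * ((b : ℝ) ^ n * (ξ - S b e n))| ≤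
      2 * |(α : ℝ)| * C₀ / (b : ℝ) ^ (n + Γ) := by
    rw [abs_mul, abs_mul, abs_mul, abs_two, abs_of_pos (show (0 : ℝ) < (b : ℝ) ^ n by positivity)]
    calc 2 * |(α : ℝ)| * ((b : ℝ) ^ n * |ξ - S b e n|)
        ≤ 2 * |(α : ℝ)| * ((b : ℝ) ^ n * (C₀ / (b : ℝ) ^ (2 * n + Γ))) := by gcongr
      _ = 2 * |(α : ℝ)| * C₀ / (b : ℝ) ^ (n + Γ) := by
          have : (b : ℝ) ^ (2 * n + Γ) = (b : ℝ) ^ n * (b : ℝ) ^ (n + Γ) := by
            rw [← pow_add]; congr 1; omega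
          rw [this]
          field_simp
  have h5 : (2 * |2 * (α : ℝ) * ξ + β| * |(((b : ℤ) ^ n : ℤ) : ℝ)| + 1) ≤
      (2 * |2 * (α : ℝ) * ξ + β| + 1) * (b : ℝ) ^ n := by
    push_cast
    rw [abs_of_pos (show (0 : ℝ) < (b : ℝ) ^ n by positivity)]
    have : 1 ≤ (b : ℝ) ^ n := one_le_pow₀ hb1
    nlinarith [abs_nonneg (2 * (α : ℝ) * ξ + β)]
  have hC0 : 0 ≤ 2 * |(α : ℝ)| * C₀ / (b : ℝ) ^ (n + Γ) := (abs_nonneg _).trans h4
  calc (1 : ℝ) ≤ _ := h2
    _ ≤ ((2 * |2 * (α : ℝ) * ξ + β| + 1) * (b : ℝ) ^ n) *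
        (2 * |(α : ℝ)| * C₀ / (b : ℝ) ^ (n + Γ)) :=
        mul_le_mul h5 h4 (abs_nonneg _) (by positivity)
    _ = _ := by
        rw [pow_add]
        field_simp

/-- The main estimate: if `u` is a place at which something happens, then there is a place or a sum
of two smaller places in every interval `[u + w, u + 2 w + L)`. -/
lemma main_estimate (hb : 2 ≤ b) (hα : α ≠ 0) (hξ : Irrational ξ)
    (hq : (α : ℝ) * ξ ^ 2 + β * ξ + γ = 0) (hB : ∀ k, |(e k : ℝ)| ≤ B)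
    (hC : ∀ n ≤ n₁, |ξ - S b e n| ≤ C₀ / (b : ℝ) ^ n) (u w g : ℕ) (hn : u + w + g ≤ n₁)
    (hA : ∀ k, u + w ≤ k → k < u + w + g → e k = 0)
    (hP : ∀ x y, x < u → y < u → u + w ≤ x + y → x + y < u + w + g → e x = 0 ∨ e y = 0)
    (hV : S b e (u + w) ≠ S b e u) :
    1 ≤ (4 * |2 * α * ξ + β| * B + 1) * (b : ℝ) ^ w *
      (|(α : ℝ)| * C₀ ^ 2 * (b : ℝ) ^ w / (b : ℝ) ^ u +
        (|2 * α * ξ + β| * C₀ + |(α : ℝ)| * B ^ 2 * (u : ℝ) ^ 2) / (b : ℝ) ^ g) := by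
  have hb0 : (0 : ℝ) < b := by positivity
  have hb1 : (1 : ℝ) ≤ b := by exact_mod_cast (by omega : 1 ≤ b)
  have hB0 : 0 ≤ B := (abs_nonneg _).trans (hB 0)
  set θ : ℝ := 2 * α * ξ + β with hθ
  set N := u + w with hN
  set p := S b e u with hp
  set P : ℕ → ℕ → ℝ := fun x y => (e x : ℝ) * (e y : ℝ) / (b : ℝ) ^ (x + y) with hPdef
  set P1 : ℝ := ∑ x ∈ range u, ∑ y ∈ range u, (if x + y < N then P x y else 0) with hP1
  set P2 : ℝ := ∑ x ∈ range u, ∑ y ∈ range u, (if x + y < N then 0 else P x y) with hP2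
  have hpp : p ^ 2 = P1 + P2 := by
    rw [hP1, hP2, ← sum_add_distrib, sq, hp]
    unfold S
    rw [sum_mul_sum]
    refine sum_congr rfl fun x _ => ?_
    rw [← sum_add_distrib]
    refine sum_congr rfl fun y _ => ?_
    have h1 : (e x : ℝ) / (b : ℝ) ^ x * ((e y : ℝ) / (b : ℝ) ^ y) = P x y := by
      rw [hPdef]
      simp only [pow_add]
      field_simp
    rw [h1]
    split_ifs <;> ring
  -- the first part is an integer after scaling
  obtain ⟨z1, hz1⟩ : ∃ z : ℤ, (b : ℝ) ^ N * P1 = z := by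
    refine ⟨∑ x ∈ range u, ∑ y ∈ range u,
      (if x + y < N then e x * e y * (b : ℤ) ^ (N - (x + y)) else 0), ?_⟩
    push_cast
    rw [hP1, mul_sum]
    refine sum_congr rfl fun x _ => ?_
    rw [mul_sum]
    refine sum_congr rfl fun y _ => ?_
    by_cases h : x + y < N
    · rw [if_pos h, if_pos h, hPdef]
      have h1 : (b : ℝ) ^ N = (b : ℝ) ^ (N - (x + y)) * (b : ℝ) ^ (x + y) := by
        rw [← pow_add]; congr 1; omega
      simp only
      rw [h1]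
      push_cast
      field_simp
    · rw [if_neg h, if_neg h]
      simp
  obtain ⟨z2, hz2⟩ := int_S (e := e) hb u N (by omega)
  obtain ⟨z3, hz3⟩ := int_S (e := e) hb N N (by omega)
  -- the second part is small
  have hP2le : |P2| ≤ B ^ 2 * (u : ℝ) ^ 2 / (b : ℝ) ^ (N + g) := by
    rw [hP2]
    refine (abs_sum_le_sum_abs _ _).trans ?_
    calc ∑ x ∈ range u, |∑ y ∈ range u, (if x + y < N then 0 else P x y)|
        ≤ ∑ x ∈ range u, ∑ y ∈ range u, B ^ 2 / (b : ℝ) ^ (N + g) := by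
          refine sum_le_sum fun x hx => (abs_sum_le_sum_abs _ _).trans ?_
          refine sum_le_sum fun y hy => ?_
          rw [mem_range] at hx hy
          have hpos : 0 ≤ B ^ 2 / (b : ℝ) ^ (N + g) := by positivity
          by_cases h : x + y < N
          · rw [if_pos h, abs_zero]; exact hpos
          · rw [if_neg h]
            by_cases h' : x + y < N + g
            · rcases hP x y hx hy (by omega) h' with h0 | h0
              · rw [hPdef]; simp only [h0]; simpa using hpos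
              · rw [hPdef]; simp only [h0]; simpa using hpos
            · rw [hPdef]
              simp only
              rw [abs_div, abs_mul, abs_of_pos (show (0 : ℝ) < (b : ℝ) ^ (x + y) by positivity)]
              have h1 : |(e x : ℝ)| * |(e y : ℝ)| ≤ B ^ 2 := by
                rw [sq]; exact mul_le_mul (hB x) (hB y) (abs_nonneg _) hB0
              have h2 : (b : ℝ) ^ (N + g) ≤ (b : ℝ) ^ (x + y) := pow_le_pow_right₀ hb1 (by omega)
              gcongr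
      _ = B ^ 2 * (u : ℝ) ^ 2 / (b : ℝ) ^ (N + g) := by
          simp only [sum_const, card_range, nsmul_eq_mul]
          ring
  -- the integers V and I
  have hV' : (z3 - z2 : ℤ) ≠ 0 := by
    intro h0
    apply hV
    have h1 : (b : ℝ) ^ N * S b e N = (b : ℝ) ^ N * S b e u := by
      rw [hz3, hz2]
      exact_mod_cast (by omega : z3 = z2)
    exact mul_left_cancel₀ (by positivity) h1
  have hSN : S b e (N + g) = S b e N := S_const (by omega) hA
  have hξN : |ξ - S b e N| ≤ C₀ / (b : ℝ) ^ (N + g) := by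
    rw [← hSN]; exact hC _ hn
  have hδ : |ξ - p| ≤ C₀ / (b : ℝ) ^ u := hC _ (by omega)
  have hC0 : 0 ≤ C₀ := by
    have h1 : 0 ≤ C₀ / (b : ℝ) ^ u := (abs_nonneg _).trans hδ
    by_contra hcon
    push Not at hcon
    have : C₀ / (b : ℝ) ^ u < 0 := div_neg_of_neg_of_pos hcon (by positivity)
    linarith
  have hkey : θ * ((z3 - z2 : ℤ) : ℝ) + ((α * z1 + β * z2 + γ * (b : ℤ) ^ N : ℤ) : ℝ) =
      (b : ℝ) ^ N * (α * (ξ - p) ^ 2 - θ * (ξ - S b e N) - α * P2) := by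
    push_cast
    rw [← hz1, ← hz2, ← hz3]
    have h1 : (α : ℝ) * p ^ 2 + β * p + γ = - θ * (ξ - p) + α * (ξ - p) ^ 2 := by
      rw [hθ]; linear_combination hq
    have h2 : P1 = p ^ 2 - P2 := by rw [hpp]; ring
    rw [h2]
    linear_combination ((b : ℝ) ^ N) * h1
  have hupper : |θ * ((z3 - z2 : ℤ) : ℝ) + ((α * z1 + β * z2 + γ * (b : ℤ) ^ N : ℤ) : ℝ)| ≤
      |(α : ℝ)| * C₀ ^ 2 * (b : ℝ) ^ w / (b : ℝ) ^ u +
        (|θ| * C₀ + |(α : ℝ)| * B ^ 2 * (u : ℝ) ^ 2) / (b : ℝ) ^ g := by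
    rw [hkey, abs_mul, abs_of_pos (show (0 : ℝ) < (b : ℝ) ^ N by positivity)]
    have h1 : |(α : ℝ) * (ξ - p) ^ 2 - θ * (ξ - S b e N) - α * P2| ≤
        |(α : ℝ)| * (C₀ / (b : ℝ) ^ u) ^ 2 + |θ| * (C₀ / (b : ℝ) ^ (N + g)) +
          |(α : ℝ)| * (B ^ 2 * (u : ℝ) ^ 2 / (b : ℝ) ^ (N + g)) := by
      refine (abs_sub _ _).trans ?_
      refine add_le_add ((abs_sub _ _).trans (add_le_add ?_ ?_)) ?_
      · rw [abs_mul, abs_pow]
        gcongr
      · rw [abs_mul]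
        gcongr
      · rw [abs_mul]
        gcongr
    calc (b : ℝ) ^ N * |(α : ℝ) * (ξ - p) ^ 2 - θ * (ξ - S b e N) - α * P2|
        ≤ (b : ℝ) ^ N * (|(α : ℝ)| * (C₀ / (b : ℝ) ^ u) ^ 2 + |θ| * (C₀ / (b : ℝ) ^ (N + g)) +
          |(α : ℝ)| * (B ^ 2 * (u : ℝ) ^ 2 / (b : ℝ) ^ (N + g))) := by gcongr
      _ = _ := by
          rw [hN, pow_add, pow_add, pow_add]
          field_simp
          ring
  have hVle : |((z3 - z2 : ℤ) : ℝ)| ≤ 2 * B * (b : ℝ) ^ w := by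
    push_cast
    rw [← hz2, ← hz3, ← mul_sub, abs_mul, abs_of_pos (show (0 : ℝ) < (b : ℝ) ^ N by positivity)]
    calc (b : ℝ) ^ N * |S b e N - S b e u| ≤ (b : ℝ) ^ N * (2 * B / (b : ℝ) ^ u) := by
          have := S_sub hb hB (u := u) (N := N) (by omega)
          gcongr
      _ = 2 * B * (b : ℝ) ^ w := by
          rw [hN, pow_add]
          field_simp
  have hliou := liouville hα hξ hq (z3 - z2) (α * z1 + β * z2 + γ * (b : ℤ) ^ N) hV'
  rw [← hθ] at hliou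
  have hfac : 2 * |θ| * |((z3 - z2 : ℤ) : ℝ)| + 1 ≤ (4 * |θ| * B + 1) * (b : ℝ) ^ w := by
    have h1 : 1 ≤ (b : ℝ) ^ w := one_le_pow₀ hb1
    have h2 : 2 * |θ| * |((z3 - z2 : ℤ) : ℝ)| ≤ 2 * |θ| * (2 * B * (b : ℝ) ^ w) :=
      mul_le_mul_of_nonneg_left hVle (by positivity)
    nlinarith
  calc (1 : ℝ) ≤ _ := hliou
    _ ≤ _ := mul_le_mul hfac hupper (abs_nonneg _) (by positivity)

end

end Pool.Agent.V7H16
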