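import Pool.Agent.V7H16.Scales
import Pool.Agent.V7H16.Liou

/-!
# Many places in every interval `[N / log N, N]`
-/

set_option autoImplicit false

open Finset

namespace Pool.Agent.V7H16

/-- A set with few members in `(a₁, a₂]` has a member with a long gap to its left. -/
lemma exists_left_gap (P : ℕ → Prop) [DecidablePred P] (a₁ a₂ h : ℕ) (hP2 : P a₂)
    (hcard : h * ((Ioc a₁ a₂).filter P).card < a₂ - a₁) :
    ∃ u, a₁ < u ∧ u ≤ a₂ ∧ P u ∧ ∀ k, u ≤ k + h → k < u → ¬ P k := by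
  by_contra hcon
  push Not at hcon
  have hsub : Ico a₁ a₂ ⊆ ((Ioc a₁ a₂).filter P).biUnion fun u => Ico (u - h) u := by
    intro k hk
    rw [mem_Ico] at hk
    have hex : ∃ u, k < u ∧ P u := ⟨a₂, hk.2, hP2⟩
    classical
    set u := Nat.find hex with hu
    have h1 : k < u ∧ P u := Nat.find_spec hex
    have h2 : u ≤ a₂ := Nat.find_min' hex ⟨hk.2, hP2⟩
    obtain ⟨k', hk1, hk2, hk3⟩ := hcon u (by omega) h2 h1.2
    have h3 : k' ≤ k := by
      by_contra h4
      push Not at h4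
      exact Nat.find_min hex hk2 ⟨h4, hk3⟩
    rw [mem_biUnion]
    refine ⟨u, ?_, ?_⟩
    · rw [mem_filter, mem_Ioc]; exact ⟨⟨by omega, h2⟩, h1.2⟩
    · rw [mem_Ico]; omega
  have h1 := card_le_card hsub
  have h2 : (((Ioc a₁ a₂).filter P).biUnion fun u => Ico (u - h) u).card ≤
      ((Ioc a₁ a₂).filter P).card * h := by
    refine card_biUnion_le_card_mul _ _ _ fun u _ => ?_
    rw [Nat.card_Ico]; omega
  rw [Nat.card_Ico] at h1
  rw [mul_comm] at hcard
  omega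

/-- The combinatorial core: `e` has many places in `[h, u + h]`. -/
lemma core {b : ℕ} (hb : 2 ≤ b) {α β γ : ℤ} (hα : α ≠ 0) {ξ : ℝ} (hξ : Irrational ξ)
    (hq : (α : ℝ) * ξ ^ 2 + β * ξ + γ = 0) {B C₀ : ℝ} {e : ℕ → ℤ} {n₁ Γ : ℕ}
    (hB : ∀ k, |(e k : ℝ)| ≤ B) (hC : ∀ n ≤ n₁, |ξ - S b e n| ≤ C₀ / (b : ℝ) ^ n)
    (hG3 : 2 * ((4 * |2 * α * ξ + β| * B + 1) *
      (|2 * α * ξ + β| * C₀ + |(α : ℝ)| * B ^ 2)) < 2 ^ Γ)
    (hG4 : 2 * ((4 * |2 * α * ξ + β| * B + 1) * (|(α : ℝ)| * C₀ ^ 2)) < 2 ^ Γ)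
    (u h L q : ℕ) (hu1 : 1 ≤ u) (hu : e u ≠ 0)
    (hgap : ∀ k, u ≤ k + h → k < u → e k = 0)
    (hL : 0 < L) (huh : u + h ≤ n₁) (hhu : h + Γ ≤ u) (hu2 : (u : ℝ) ^ 2 * 2 ^ Γ ≤ 2 ^ L)
    (hq1 : 3 ^ q * L ≤ h)
    (hV : ∀ w, L ≤ w → w ≤ h → S b e (u + w) ≠ S b e u) :
    2 * q ≤ 9 * (((Icc h (u + h)).filter fun k => e k ≠ 0).card +
      ((Icc h (u + h)).filter fun k => e k ≠ 0).card) := by
  classical
  set A := (Icc h (u + h)).filter fun k => e k ≠ 0 with hA
  set Z : Finset ℤ := A.image (fun k : ℕ => (k : ℤ)) ∪ A.image (fun k : ℕ => (u : ℤ) - k) with hZ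
  have hZc : Z.card ≤ A.card + A.card :=
    (card_union_le _ _).trans (add_le_add card_image_le card_image_le)
  have hcov : ∀ s ∈ range q, ∃ z ∈ Z, ∃ z' ∈ Z,
      (3 ^ s * L : ℤ) ≤ z - z' ∧ z - z' < (3 ^ (s + 1) * L : ℤ) := by
    intro s hs
    rw [mem_range] at hs
    set w := 3 ^ s * L with hw
    have hwL : L ≤ w := Nat.le_mul_of_pos_left _ (by positivity)
    have h3w : 3 * w ≤ h := by
      refine le_trans ?_ hq1
      have : 3 * w = 3 ^ (s + 1) * L := by rw [hw, pow_succ]; ring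
      rw [this]
      exact Nat.mul_le_mul_right _ (Nat.pow_le_pow_right (by norm_num) hs)
    have hcast : (3 ^ s * L : ℤ) = (w : ℤ) := by rw [hw]; push_cast; ring
    have hcast' : (3 ^ (s + 1) * L : ℤ) = 3 * (w : ℤ) := by rw [hw]; push_cast; ring
    rw [hcast, hcast']
    by_contra hcon
    push Not at hcon
    have hmain := main_estimate hb hα hξ hq hB hC u w (w + L) (by omega) ?_ ?_
      (hV w hwL (by omega))
    · -- contradiction with the choice of the constants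
      have hb0 : (0 : ℝ) < b := by positivity
      have hb2 : (2 : ℝ) ≤ b := by exact_mod_cast hb
      have hB0 : 0 ≤ B := (abs_nonneg _).trans (hB 0)
      have hC0 : 0 ≤ C₀ := by
        have h1 := (abs_nonneg _).trans (hC 0 (Nat.zero_le _))
        simpa using h1
      set θ : ℝ := 2 * α * ξ + β with hθ
      set F : ℝ := 4 * |θ| * B + 1 with hF
      have hF1 : 1 ≤ F := by
        have : 0 ≤ 4 * |θ| * B := by positivity
        linarith
      have hpow1 : (b : ℝ) ^ w * ((b : ℝ) ^ w / (b : ℝ) ^ u) ≤ 1 / 2 ^ Γ := by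
        have h1 : (b : ℝ) ^ u = (b : ℝ) ^ w * (b : ℝ) ^ w * (b : ℝ) ^ (u - 2 * w) := by
          rw [← pow_add, ← pow_add]; congr 1; omega
        rw [h1]
        have h2 : (2 : ℝ) ^ Γ ≤ (b : ℝ) ^ (u - 2 * w) :=
          (pow_le_pow_left₀ (by norm_num) hb2 Γ).trans
            (pow_le_pow_right₀ (by linarith) (by omega))
        have h3 : (b : ℝ) ^ w * ((b : ℝ) ^ w / ((b : ℝ) ^ w * (b : ℝ) ^ w * (b : ℝ) ^ (u - 2 * w)))
            = 1 / (b : ℝ) ^ (u - 2 * w) := by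
          field_simp
        rw [h3]
        exact one_div_le_one_div_of_le (by positivity) h2
      have hpow2 : (b : ℝ) ^ w * ((u : ℝ) ^ 2 / (b : ℝ) ^ (w + L)) ≤ 1 / 2 ^ Γ := by
        have h2 : (2 : ℝ) ^ L ≤ (b : ℝ) ^ L := pow_le_pow_left₀ (by norm_num) hb2 L
        have h3 : (b : ℝ) ^ w * ((u : ℝ) ^ 2 / (b : ℝ) ^ (w + L)) = (u : ℝ) ^ 2 / (b : ℝ) ^ L := by
          rw [pow_add]; field_simp
        rw [h3, div_le_div_iff₀ (by positivity) (by positivity)]
        linarith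
      have hu1' : (1 : ℝ) ≤ (u : ℝ) ^ 2 := by
        have : (1 : ℝ) ≤ u := by exact_mod_cast hu1
        nlinarith
      have hterm1 : F * (b : ℝ) ^ w * (|(α : ℝ)| * C₀ ^ 2 * (b : ℝ) ^ w / (b : ℝ) ^ u) < 1 / 2 := by
        calc F * (b : ℝ) ^ w * (|(α : ℝ)| * C₀ ^ 2 * (b : ℝ) ^ w / (b : ℝ) ^ u)
            = (F * (|(α : ℝ)| * C₀ ^ 2)) * ((b : ℝ) ^ w * ((b : ℝ) ^ w / (b : ℝ) ^ u)) := by ring
          _ ≤ (F * (|(α : ℝ)| * C₀ ^ 2)) * (1 / 2 ^ Γ) :=
              mul_le_mul_of_nonneg_left hpow1 (by positivity)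
          _ < 1 / 2 := by
              rw [mul_one_div, div_lt_div_iff₀ (by positivity) (by norm_num)]
              linarith
      have hterm2 : F * (b : ℝ) ^ w * ((|θ| * C₀ + |(α : ℝ)| * B ^ 2 * (u : ℝ) ^ 2) /
          (b : ℝ) ^ (w + L)) < 1 / 2 := by
        calc F * (b : ℝ) ^ w * ((|θ| * C₀ + |(α : ℝ)| * B ^ 2 * (u : ℝ) ^ 2) / (b : ℝ) ^ (w + L))
            ≤ F * (b : ℝ) ^ w * ((|θ| * C₀ * (u : ℝ) ^ 2 + |(α : ℝ)| * B ^ 2 * (u : ℝ) ^ 2) /
              (b : ℝ) ^ (w + L)) := by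
              have : |θ| * C₀ ≤ |θ| * C₀ * (u : ℝ) ^ 2 :=
                le_mul_of_one_le_right (by positivity) hu1'
              gcongr
          _ = (F * (|θ| * C₀ + |(α : ℝ)| * B ^ 2)) *
              ((b : ℝ) ^ w * ((u : ℝ) ^ 2 / (b : ℝ) ^ (w + L))) := by ring
          _ ≤ (F * (|θ| * C₀ + |(α : ℝ)| * B ^ 2)) * (1 / 2 ^ Γ) :=
              mul_le_mul_of_nonneg_left hpow2 (by positivity)
          _ < 1 / 2 := by
              rw [mul_one_div, div_lt_div_iff₀ (by positivity) (by norm_num)]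
              linarith
      have : F * (b : ℝ) ^ w * (|(α : ℝ)| * C₀ ^ 2 * (b : ℝ) ^ w / (b : ℝ) ^ u +
        (|θ| * C₀ + |(α : ℝ)| * B ^ 2 * (u : ℝ) ^ 2) / (b : ℝ) ^ (w + L)) < 1 := by
        rw [mul_add]; linarith
      linarith
    · -- no place in the interval
      intro k hk1 hk2
      by_contra hk
      have hz : (k : ℤ) ∈ Z := by
        rw [hZ, mem_union]; left
        exact mem_image_of_mem _ (by rw [hA, mem_filter, mem_Icc]; exact ⟨by omega, hk⟩)
      have hz' : (u : ℤ) ∈ Z := by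
        rw [hZ, mem_union]; left
        exact mem_image_of_mem (fun k : ℕ => (k : ℤ))
          (by rw [hA, mem_filter, mem_Icc]; exact ⟨by omega, hu⟩)
      have := hcon _ hz _ hz' (by omega)
      omega
    · -- no sum in the interval
      intro x y hx hy h1 h2
      by_contra hxy
      push Not at hxy
      have hx' : x + h < u := by
        by_contra h5
        exact hxy.1 (hgap x (by omega) hx)
      have hy' : y + h < u := by
        by_contra h5
        exact hxy.2 (hgap y (by omega) hy)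
      have hz : (x : ℤ) ∈ Z := by
        rw [hZ, mem_union]; left
        exact mem_image_of_mem _ (by rw [hA, mem_filter, mem_Icc]; exact ⟨by omega, hxy.1⟩)
      have hz' : (u : ℤ) - y ∈ Z := by
        rw [hZ, mem_union]; right
        exact mem_image_of_mem (fun k : ℕ => (u : ℤ) - k)
          (by rw [hA, mem_filter, mem_Icc]; exact ⟨by omega, hxy.2⟩)
      have := hcon _ hz _ hz' (by omega)
      omega
  have h1 := scales Z (range q) L hL hcov
  rw [card_range] at h1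
  exact h1.trans (Nat.mul_le_mul_left _ hZc)

end Pool.Agent.V7H16
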