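import Mathlib

/-!
# Differences of a finite set of integers meet few scales

If `Z` is a finite set of integers and `T` is a finite set of numbers `s` such that some difference
of two members of `Z` lies in `[3 ^ s L, 3 ^ (s + 1) L)`, then `2 |T| ≤ 9 |Z|`.
-/

set_option autoImplicit false

open Finset

namespace Pool.Agent.V7H16

/-- A geometric sum over a set of exponents. -/
lemma geo_tail (T : Finset ℕ) (s₀ : ℕ) (h : ∀ s ∈ T, s₀ ≤ s) :
    ∑ s ∈ T, (1 / 3 : ℝ) ^ s ≤ 3 / 2 * (1 / 3 : ℝ) ^ s₀ := by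
  have h1 : T ⊆ Ico s₀ (T.sup id + 1 + s₀) := by
    intro s hs
    rw [mem_Ico]
    refine ⟨h s hs, ?_⟩
    have : s ≤ T.sup id := le_sup (f := id) hs
    omega
  refine (sum_le_sum_of_subset_of_nonneg h1 (fun _ _ _ => by positivity)).trans ?_
  rw [sum_Ico_eq_sum_range]
  have h2 : ∀ i, (1 / 3 : ℝ) ^ (s₀ + i) = (1 / 3 : ℝ) ^ s₀ * (1 / 3 : ℝ) ^ i := fun i => pow_add _ _ _
  simp_rw [h2]
  rw [← mul_sum, geom_sum_eq (by norm_num)]
  have h3 : 0 < (1 / 3 : ℝ) ^ (T.sup id + 1 + s₀ - s₀) := by positivity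
  have h4 : 0 < (1 / 3 : ℝ) ^ s₀ := by positivity
  have h5 : ((1 / 3 : ℝ) ^ (T.sup id + 1 + s₀ - s₀) - 1) / (1 / 3 - 1) ≤ 3 / 2 := by
    rw [div_le_iff_of_neg (by norm_num)]
    linarith
  nlinarith

/-- The contribution of one gap. -/
lemma gap_sum (T : Finset ℕ) (g L : ℝ) (hL : 0 < L) (hg : 0 < g) :
    ∑ s ∈ T, (if g < 3 ^ (s + 1) * L then g / (3 ^ s * L) else 0) ≤ 9 / 2 := by
  rw [← sum_filter]
  rcases (T.filter fun s => g < 3 ^ (s + 1) * L).eq_empty_or_nonempty with h0 | h0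
  · rw [h0]; norm_num
  · set T' := T.filter fun s => g < 3 ^ (s + 1) * L with hT'
    set s₀ := T'.min' h0 with hs₀
    have hmem : s₀ ∈ T' := T'.min'_mem h0
    have h1 : g < 3 ^ (s₀ + 1) * L := (mem_filter.1 hmem).2
    have h2 : ∀ s ∈ T', g / (3 ^ s * L) = (g / L) * (1 / 3 : ℝ) ^ s := by
      intro s _
      rw [one_div, inv_pow]
      field_simp
    rw [sum_congr rfl h2, ← mul_sum]
    have h3 := geo_tail T' s₀ (fun s hs => T'.min'_le s hs)
    have h4 : 0 < g / L := div_pos hg hL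
    have h5 : g / L < 3 ^ (s₀ + 1) := by rwa [div_lt_iff₀ hL]
    calc g / L * ∑ s ∈ T', (1 / 3 : ℝ) ^ s ≤ g / L * (3 / 2 * (1 / 3 : ℝ) ^ s₀) :=
          mul_le_mul_of_nonneg_left h3 h4.le
      _ ≤ 3 ^ (s₀ + 1) * (3 / 2 * (1 / 3 : ℝ) ^ s₀) :=
          mul_le_mul_of_nonneg_right h5.le (by positivity)
      _ = 9 / 2 := by
          rw [pow_succ, one_div, inv_pow]
          field_simp
          norm_num

/-- Differences of a finite set of integers meet few scales. -/
theorem scales (Z : Finset ℤ) (T : Finset ℕ) (L : ℕ) (hL : 0 < L)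
    (h : ∀ s ∈ T, ∃ z ∈ Z, ∃ z' ∈ Z, (3 ^ s * L : ℤ) ≤ z - z' ∧ z - z' < (3 ^ (s + 1) * L : ℤ)) :
    2 * T.card ≤ 9 * Z.card := by
  classical
  set m := Z.card with hm
  let f : ℕ → ℤ := fun i => if hi : i < m then Z.orderEmbOfFin rfl ⟨i, hi⟩ else 0
  have hf : ∀ i j : ℕ, i < j → j < m → f i < f j := by
    intro i j hij hj
    simp only [f, hj, hij.trans hj, dif_pos]
    exact (Z.orderEmbOfFin rfl).strictMono (by simpa using hij)
  have hsurj : ∀ z ∈ Z, ∃ i, i < m ∧ f i = z := by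
    intro z hz
    have : z ∈ Set.range (Z.orderEmbOfFin rfl) := by
      rw [range_orderEmbOfFin]; exact hz
    obtain ⟨i, hi⟩ := this
    refine ⟨i, i.2, ?_⟩
    have h9 : f i = Z.orderEmbOfFin rfl ⟨i, i.2⟩ := dif_pos i.2
    rw [h9]
    exact hi
  -- each covered scale is paid for by the gaps
  have key : ∀ s ∈ T, (1 : ℝ) ≤ ∑ i ∈ range (m - 1),
      (if ((f (i + 1) - f i : ℤ) : ℝ) < 3 ^ (s + 1) * (L : ℝ)
        then ((f (i + 1) - f i : ℤ) : ℝ) / (3 ^ s * L) else 0) := by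
    intro s hs
    obtain ⟨z, hz, z', hz', h1, h2⟩ := h s hs
    obtain ⟨j, hj, rfl⟩ := hsurj z hz
    obtain ⟨i, hi, rfl⟩ := hsurj z' hz'
    have hpos : (0 : ℤ) < 3 ^ s * L := by positivity
    have hij : i < j := by
      by_contra hcon
      push Not at hcon
      rcases hcon.eq_or_lt with h3 | h3
      · subst h3; simp at h1; omega
      · have := hf j i h3 hi; omega
    have hmono : ∀ k ∈ Ico i j, f i ≤ f k ∧ f (k + 1) ≤ f j ∧ f k < f (k + 1) := by
      intro k hk
      rw [mem_Ico] at hk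
      refine ⟨?_, ?_, hf k (k + 1) (by omega) (by omega)⟩
      · rcases hk.1.eq_or_lt with h3 | h3
        · rw [h3]
        · exact (hf i k h3 (by omega)).le
      · rcases (by omega : k + 1 ≤ j).eq_or_lt with h3 | h3
        · rw [h3]
        · exact (hf (k + 1) j h3 hj).le
    have htel : ∑ k ∈ Ico i j, (f (k + 1) - f k) = f j - f i := by
      rw [sum_Ico_eq_sub _ hij.le, sum_range_sub, sum_range_sub]; ring
    have hsub : Ico i j ⊆ range (m - 1) := by
      intro k hk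
      rw [mem_Ico] at hk
      rw [mem_range]; omega
    have hLr : (0 : ℝ) < 3 ^ s * L := by positivity
    calc (1 : ℝ) ≤ ((f j - f i : ℤ) : ℝ) / (3 ^ s * L) := by
          rw [le_div_iff₀ hLr, one_mul]
          exact_mod_cast h1
      _ = ∑ k ∈ Ico i j, ((f (k + 1) - f k : ℤ) : ℝ) / (3 ^ s * L) := by
          rw [← htel, Int.cast_sum, sum_div]
      _ = ∑ k ∈ Ico i j, (if ((f (k + 1) - f k : ℤ) : ℝ) < 3 ^ (s + 1) * (L : ℝ)
            then ((f (k + 1) - f k : ℤ) : ℝ) / (3 ^ s * L) else 0) := by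
          refine sum_congr rfl fun k hk => ?_
          rw [if_pos]
          obtain ⟨h3, h4, h5⟩ := hmono k hk
          have h6 : f (k + 1) - f k < 3 ^ (s + 1) * L := by omega
          exact_mod_cast h6
      _ ≤ _ := by
          refine sum_le_sum_of_subset_of_nonneg hsub fun k hk _ => ?_
          split_ifs
          · rw [mem_range] at hk
            have h3 := hf k (k + 1) (by omega) (by omega)
            have h4 : (0 : ℝ) ≤ ((f (k + 1) - f k : ℤ) : ℝ) := by
              have : 0 ≤ f (k + 1) - f k := by omega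
              exact_mod_cast this
            positivity
          · exact le_rfl
  have h1 : (T.card : ℝ) ≤ (9 / 2 : ℝ) * (m - 1 : ℕ) := by
    calc (T.card : ℝ) = ∑ s ∈ T, (1 : ℝ) := by simp
      _ ≤ ∑ s ∈ T, ∑ i ∈ range (m - 1),
      (if ((f (i + 1) - f i : ℤ) : ℝ) < 3 ^ (s + 1) * (L : ℝ)
        then ((f (i + 1) - f i : ℤ) : ℝ) / (3 ^ s * L) else 0) := sum_le_sum key
      _ = ∑ i ∈ range (m - 1), ∑ s ∈ T,
      (if ((f (i + 1) - f i : ℤ) : ℝ) < 3 ^ (s + 1) * (L : ℝ)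
        then ((f (i + 1) - f i : ℤ) : ℝ) / (3 ^ s * L) else 0) := sum_comm
      _ ≤ ∑ i ∈ range (m - 1), (9 / 2 : ℝ) := by
          refine sum_le_sum fun i hi => ?_
          rw [mem_range] at hi
          refine gap_sum T _ L (by exact_mod_cast hL) ?_
          have h3 := hf i (i + 1) (by omega) (by omega)
          have : 0 < f (i + 1) - f i := by omega
          exact_mod_cast this
      _ = (9 / 2 : ℝ) * (m - 1 : ℕ) := by simp; ring
  have h2 : ((m - 1 : ℕ) : ℝ) ≤ m := by exact_mod_cast Nat.sub_le _ _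
  have h3 : (2 * T.card : ℝ) ≤ 9 * m := by linarith
  exact_mod_cast h3

end Pool.Agent.V7H16
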